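import Pool.Agent.R955.FD.Defs

set_option autoImplicit false

/-!
Project FD (MP_0880e2_an), piece KER: a Schwartz kernel with its modulations.
-/

namespace Pool.Agent.R955.FD

open MeasureTheory Set Filter Topology
open scoped ENNReal FourierTransform ContDiff

namespace KERP

/-- the bump -/
noncomputable def bb : ContDiffBump (0 : ℝ) := ⟨1 / 32, 1 / 16, by norm_num, by norm_num⟩

/-- the translates of the bump -/
noncomputable def bf (n : ℤ) (ξ : ℝ) : ℂ := ((bb.normed volume (ξ - n) : ℝ) : ℂ)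

theorem normed_zero (x : ℝ) (h : 1 / 16 ≤ |x|) : bb.normed volume x = 0 := by
  by_contra h1
  have h2 : x ∈ Function.support (bb.normed volume) := h1
  rw [bb.support_normed_eq, mem_ball_zero_iff, Real.norm_eq_abs] at h2
  exact absurd h2 (not_lt.2 h)

theorem bf_zero (n : ℤ) (ξ : ℝ) (h : 1 / 16 ≤ |ξ - n|) : bf n ξ = 0 := by
  unfold bf
  rw [normed_zero _ h, Complex.ofReal_zero]

theorem bf_cs (n : ℤ) : HasCompactSupport (bf n) := by
  apply HasCompactSupport.intro (K := Metric.closedBall (n : ℝ) (1 / 16)) (isCompact_closedBall _ _)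
  intro x hx
  apply bf_zero
  rw [Metric.mem_closedBall, not_le, Real.dist_eq] at hx
  exact hx.le

theorem bf_smooth (n : ℤ) : ContDiff ℝ ∞ (bf n) := by
  have h1 : ContDiff ℝ ∞ (fun ξ : ℝ => bb.normed volume (ξ - n)) :=
    (bb.contDiff_normed (n := ⊤)).comp (contDiff_id.sub contDiff_const)
  exact Complex.ofRealCLM.contDiff.comp h1

/-- the translates of the bump as Schwartz functions -/
noncomputable def bS (n : ℤ) : SchwartzMap ℝ ℂ := (bf_cs n).toSchwartzMap (bf_smooth n)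

/-- the kernels -/
noncomputable def ph (n : ℤ) : SchwartzMap ℝ ℂ := 𝓕⁻ (bS n)

theorem ph_apply (n : ℤ) (t : ℝ) : ph n t = ∫ ξ : ℝ, ch ξ t * bf n ξ := by
  have h1 : ph n t = 𝓕⁻ (bf n) t := congrFun (SchwartzMap.fourierInv_coe (bS n)) t
  rw [h1, Real.fourierInv_eq']
  congr 1
  funext ξ
  rw [smul_eq_mul]
  unfold ch
  congr 3
  have h2 : inner ℝ ξ t = ξ * t := by
    simp [mul_comm]
  rw [h2]
  push_cast
  ring

theorem ch_add (a b t : ℝ) : ch (a + b) t = ch a t * ch b t := by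
  unfold ch
  rw [← Complex.exp_add]
  congr 1
  push_cast
  ring

theorem norm_ch (a t : ℝ) : ‖ch a t‖ = 1 := by
  unfold ch
  exact Complex.norm_exp_ofReal_mul_I _

theorem ph_mod (n : ℤ) (t : ℝ) : ph n t = ch (n : ℝ) t * ph 0 t := by
  rw [ph_apply, ph_apply, ← integral_const_mul]
  rw [← integral_add_right_eq_self _ (n : ℝ)]
  congr 1
  funext ξ
  unfold bf
  rw [ch_add, add_sub_cancel_right, Int.cast_zero, sub_zero]
  ring

theorem fourier_ph (n : ℤ) (ξ : ℝ) : 𝓕 (fun t => ph n t) ξ = bf n ξ := by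
  have h1 : 𝓕 (ph n) = bS n := FourierTransform.fourier_fourierInv_eq (bS n)
  have h2 : (𝓕 (ph n) : SchwartzMap ℝ ℂ) ξ = 𝓕 (fun t => ph n t) ξ :=
    congrFun (SchwartzMap.fourier_coe (ph n)) ξ
  rw [← h2, h1]
  rfl

theorem integrable_bf0 : Integrable (fun ξ : ℝ => ((bb.normed volume ξ : ℝ) : ℂ)) :=
  (bb.integrable_normed (μ := volume)).ofReal

theorem ph_lower (t : ℝ) (ht : t ∈ Icc (0 : ℝ) 1) : 1 / 2 ≤ ‖ph 0 t‖ := by
  have h0 : ∀ ξ : ℝ, bf 0 ξ = ((bb.normed volume ξ : ℝ) : ℂ) := by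
    intro ξ
    unfold bf
    rw [Int.cast_zero, sub_zero]
  have h1 : ∫ ξ : ℝ, bf 0 ξ = 1 := by
    simp_rw [h0]
    rw [integral_complex_ofReal, bb.integral_normed, Complex.ofReal_one]
  have hi : Integrable (bf 0) := by
    have : bf 0 = fun ξ : ℝ => ((bb.normed volume ξ : ℝ) : ℂ) := funext h0
    rw [this]
    exact integrable_bf0
  have hi2 : Integrable fun ξ : ℝ => ch ξ t * bf 0 ξ := by
    refine hi.bdd_mul (c := 1) ?_ ?_
    · apply Continuous.aestronglyMeasurable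
      unfold ch
      fun_prop
    · exact ae_of_all _ fun ξ => (norm_ch ξ t).le
  have h2 : ‖ph 0 t - 1‖ ≤ Real.pi / 8 := by
    rw [ph_apply, ← h1, ← integral_sub hi2 hi]
    have h3 : ‖∫ ξ : ℝ, (ch ξ t * bf 0 ξ - bf 0 ξ)‖ ≤
        ∫ ξ : ℝ, Real.pi / 8 * bb.normed volume ξ := by
      apply norm_integral_le_of_norm_le ((bb.integrable_normed (μ := volume)).const_mul _)
      refine ae_of_all _ fun ξ => ?_
      by_cases hξ : 1 / 16 ≤ |ξ|
      · rw [h0, normed_zero ξ hξ]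
        simp
      · rw [not_le] at hξ
        have h4 : ch ξ t * bf 0 ξ - bf 0 ξ = (ch ξ t - 1) * bf 0 ξ := by ring
        rw [h4, norm_mul, h0, Complex.norm_real, Real.norm_of_nonneg (bb.nonneg_normed ξ)]
        apply mul_le_mul_of_nonneg_right _ (bb.nonneg_normed ξ)
        unfold ch
        rw [mul_comm _ Complex.I]
        refine Real.norm_exp_I_mul_ofReal_sub_one_le.trans ?_
        rw [Real.norm_eq_abs, abs_mul, abs_mul, abs_of_pos (by positivity : 0 < 2 * Real.pi),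
          abs_of_nonneg ht.1]
        have h5 : |ξ| * t ≤ 1 / 16 * 1 :=
          mul_le_mul hξ.le ht.2 ht.1 (by norm_num)
        nlinarith [Real.pi_pos]
    rwa [integral_const_mul, bb.integral_normed, mul_one] at h3
  have h3 : (1 : ℝ) ≤ ‖ph 0 t‖ + ‖ph 0 t - 1‖ := by
    have h4 : (1 : ℂ) = ph 0 t - (ph 0 t - 1) := by ring
    calc (1 : ℝ) = ‖(1 : ℂ)‖ := by simp
      _ = ‖ph 0 t - (ph 0 t - 1)‖ := by rw [← h4]
      _ ≤ ‖ph 0 t‖ + ‖ph 0 t - 1‖ := norm_sub_le _ _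
  have h4 : Real.pi / 8 ≤ 1 / 2 := by
    have := Real.pi_le_four
    linarith
  linarith

theorem ph_decay : ∃ C : ℝ, 0 < C ∧ ∀ t, ‖ph 0 t‖ ≤ C / (1 + t ^ 2) := by
  obtain ⟨C0, h0, hC0⟩ := (ph 0).decay 0 0
  obtain ⟨C2, h2, hC2⟩ := (ph 0).decay 2 0
  refine ⟨C0 + C2, by positivity, fun t => ?_⟩
  have e0 := hC0 t
  have e2 := hC2 t
  rw [norm_iteratedFDeriv_zero] at e0 e2
  rw [pow_zero, one_mul] at e0
  rw [Real.norm_eq_abs, sq_abs] at e2
  rw [le_div_iff₀ (by positivity)]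
  linarith

end KERP

theorem t_KER : S_KER :=
  ⟨KERP.ph, KERP.ph_mod, fun n ξ h => by
    rw [KERP.fourier_ph]
    exact KERP.bf_zero n ξ (by linarith), KERP.ph_lower, KERP.ph_decay⟩

end Pool.Agent.R955.FD
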