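import Mathlib

/-!
# Open tournaments, kings and quasi-components

Basic tools for problem MP_abcfaf_gt (king spaces).  A continuous weak selection on a Hausdorff
space is the same thing as a tournament with open strict relation.
-/

open Set Filter Topology

namespace Pool.Agent.R584.King

universe u

/-- A tournament on a space whose strict relation is open. -/
structure Tour (X : Type u) [TopologicalSpace X] where
  lt : X → X → Prop
  irrefl : ∀ x, ¬ lt x x
  asymm : ∀ x y, lt x y → ¬ lt y x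
  total : ∀ x y, x ≠ y → lt x y ∨ lt y x
  opn : ∀ x y, lt x y → ∃ U V, IsOpen U ∧ IsOpen V ∧ x ∈ U ∧ y ∈ V ∧ ∀ a ∈ U, ∀ b ∈ V, lt a b

variable {X : Type u} [TopologicalSpace X]

namespace Tour

/-- Reflexive version of the relation. -/
def le (T : Tour X) (x y : X) : Prop := x = y ∨ T.lt x y

/-- The reversed tournament. -/
def op (T : Tour X) : Tour X where
  lt x y := T.lt y x
  irrefl := T.irrefl
  asymm x y h := T.asymm y x h
  total x y h := (T.total x y h).symm
  opn x y h := by
    obtain ⟨U, V, hU, hV, hx, hy, h'⟩ := T.opn y x h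
    exact ⟨V, U, hV, hU, hy, hx, fun a ha b hb => h' b hb a ha⟩

theorem op_lt (T : Tour X) (x y : X) : T.op.lt x y ↔ T.lt y x := Iff.rfl

theorem op_le (T : Tour X) (x y : X) : T.op.le x y ↔ T.le y x := by
  unfold le
  rw [op_lt]
  constructor
  · rintro (h | h)
    · exact Or.inl h.symm
    · exact Or.inr h
  · rintro (h | h)
    · exact Or.inl h.symm
    · exact Or.inr h

theorem not_lt_iff (T : Tour X) {x y : X} : ¬ T.lt x y ↔ T.le y x := by
  constructor
  · intro h
    by_cases hxy : y = x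
    · exact Or.inl hxy
    · rcases T.total y x hxy with h' | h'
      · exact Or.inr h'
      · exact absurd h' h
  · rintro (rfl | h) h'
    · exact T.irrefl _ h'
    · exact T.asymm _ _ h h'

theorem not_le_iff (T : Tour X) {x y : X} : ¬ T.le x y ↔ T.lt y x := by
  rw [← T.not_lt_iff, not_not]

theorem ne_of_lt (T : Tour X) {x y : X} (h : T.lt x y) : x ≠ y := by
  rintro rfl
  exact T.irrefl _ h

theorem isOpen_lt_left (T : Tour X) (x : X) : IsOpen {z | T.lt z x} := by
  rw [isOpen_iff_forall_mem_open]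
  intro z hz
  obtain ⟨U, V, hU, hV, hx, hy, h'⟩ := T.opn z x hz
  exact ⟨U, fun a ha => h' a ha x hy, hU, hx⟩

theorem isOpen_lt_right (T : Tour X) (x : X) : IsOpen {z | T.lt x z} :=
  T.op.isOpen_lt_left x

theorem isClosed_le_left (T : Tour X) (x : X) : IsClosed {z | T.le z x} := by
  have : {z | T.le z x} = {z | T.lt x z}ᶜ := by
    ext z
    exact T.not_lt_iff.symm
  rw [this]
  exact (T.isOpen_lt_right x).isClosed_compl

theorem isClosed_le_right (T : Tour X) (x : X) : IsClosed {z | T.le x z} := by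
  have : {z | T.le x z} = {z | T.lt z x}ᶜ := by
    ext z
    exact T.not_lt_iff.symm
  rw [this]
  exact (T.isOpen_lt_left x).isClosed_compl

/-- A king of a tournament. -/
def HasKing (T : Tour X) : Prop := ∃ z, ∀ x, ∃ y, T.le y z ∧ T.le x y

/-- For a clopen set missing `b`, the two parts cut out by `b` are clopen. -/
theorem clopen_right (T : Tour X) {G : Set X} (hG : IsClopen G) {b : X} (hb : b ∉ G) :
    IsClopen (G ∩ {z | T.lt b z}) := by
  constructor
  · have : G ∩ {z | T.lt b z} = G ∩ {z | T.le b z} := by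
      ext z
      constructor
      · rintro ⟨h1, h2⟩
        exact ⟨h1, Or.inr h2⟩
      · rintro ⟨h1, rfl | h2⟩
        · exact absurd h1 hb
        · exact ⟨h1, h2⟩
    rw [this]
    exact hG.1.inter (T.isClosed_le_right b)
  · exact hG.2.inter (T.isOpen_lt_right b)

theorem clopen_left (T : Tour X) {G : Set X} (hG : IsClopen G) {b : X} (hb : b ∉ G) :
    IsClopen (G ∩ {z | T.lt z b}) := T.op.clopen_right hG hb

end Tour

/-- Every tournament has a king. -/
def KingSp (X : Type u) [TopologicalSpace X] : Prop := ∀ T : Tour X, T.HasKing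

open Tour

/-! ### Two modifications of a tournament -/

/-- Lexicographic modification by a locally constant function. -/
def lexTour (T : Tour X) (g : X → ℕ) (hg : IsLocallyConstant g) : Tour X where
  lt x y := g x < g y ∨ (g x = g y ∧ T.lt x y)
  irrefl x := by
    rintro (h | h)
    · exact lt_irrefl _ h
    · exact T.irrefl _ h.2
  asymm x y := by
    rintro (h | h) (h' | h')
    · omega
    · omega
    · omega
    · exact T.asymm _ _ h.2 h'.2
  total x y hxy := by
    rcases lt_trichotomy (g x) (g y) with h | h | h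
    · exact Or.inl (Or.inl h)
    · rcases T.total x y hxy with h' | h'
      · exact Or.inl (Or.inr ⟨h, h'⟩)
      · exact Or.inr (Or.inr ⟨h.symm, h'⟩)
    · exact Or.inr (Or.inl h)
  opn x y := by
    rintro (h | ⟨h, h'⟩)
    · refine ⟨{a | g a = g x}, {b | g b = g y}, hg.isOpen_fiber _, hg.isOpen_fiber _, rfl, rfl, ?_⟩
      intro a ha b hb
      left
      have ha' : g a = g x := ha
      have hb' : g b = g y := hb
      omega
    · obtain ⟨U, V, hU, hV, hx, hy, h''⟩ := T.opn x y h'
      refine ⟨U ∩ {a | g a = g x}, V ∩ {b | g b = g y}, hU.inter (hg.isOpen_fiber _),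
        hV.inter (hg.isOpen_fiber _), ⟨hx, rfl⟩, ⟨hy, rfl⟩, ?_⟩
      rintro a ⟨ha, ha'⟩ b ⟨hb, hb'⟩
      right
      have ha'' : g a = g x := ha'
      have hb'' : g b = g y := hb'
      exact ⟨by omega, h'' a ha b hb⟩

theorem bounded_of_king (hk : KingSp X) (T : Tour X) (g : X → ℕ) (hg : IsLocallyConstant g) :
    ∃ N, ∀ x, g x ≤ N := by
  obtain ⟨z, hz⟩ := hk (lexTour T g hg)
  refine ⟨g z, fun x => ?_⟩
  obtain ⟨y, h1, h2⟩ := hz x
  have h3 : g y ≤ g z := by
    rcases h1 with rfl | h1 | h1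
    · exact le_rfl
    · exact h1.le
    · exact h1.1.le
  have h4 : g x ≤ g y := by
    rcases h2 with rfl | h2 | h2
    · exact le_rfl
    · exact h2.le
    · exact h2.1.le
  exact h4.trans h3

theorem finite_range_of_king (hk : KingSp X) (T : Tour X) {α : Type*} (τ : X → α)
    (hτ : IsLocallyConstant τ) : (range τ).Finite := by
  by_contra hinf
  have hinf' : (range τ).Infinite := hinf
  let e : ℕ ↪ range τ := hinf'.natEmbedding _
  have he : Function.Injective (fun n => (e n : α)) := fun a b hab => e.injective (Subtype.ext hab)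
  let g : α → ℕ := Function.extend (fun n => (e n : α)) id 0
  obtain ⟨N, hN⟩ := bounded_of_king hk T (g ∘ τ) (hτ.comp g)
  obtain ⟨x, hx⟩ := (e (N + 1)).2
  have h1 := hN x
  simp only [Function.comp, hx] at h1
  have h2 : g (e (N + 1)) = N + 1 := he.extend_apply _ _ _
  rw [h2] at h1
  omega

/-- Put everything outside a clopen set below the clopen set. -/
def splitTour (T : Tour X) (A : Set X) (hA : IsClopen A) : Tour X where
  lt x y := (x ∉ A ∧ y ∈ A) ∨ ((x ∈ A ↔ y ∈ A) ∧ T.lt x y)
  irrefl x := by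
    rintro (h | h)
    · exact h.1 h.2
    · exact T.irrefl _ h.2
  asymm x y := by
    rintro (h | h) (h' | h')
    · exact h.1 h'.2
    · exact h.1 (h'.1.1 h.2)
    · exact h'.1 (h.1.1 h'.2)
    · exact T.asymm _ _ h.2 h'.2
  total x y hxy := by
    by_cases hx : x ∈ A <;> by_cases hy : y ∈ A
    · rcases T.total x y hxy with h' | h'
      · exact Or.inl (Or.inr ⟨by simp [hx, hy], h'⟩)
      · exact Or.inr (Or.inr ⟨by simp [hx, hy], h'⟩)
    · exact Or.inr (Or.inl ⟨hy, hx⟩)
    · exact Or.inl (Or.inl ⟨hx, hy⟩)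
    · rcases T.total x y hxy with h' | h'
      · exact Or.inl (Or.inr ⟨by simp [hx, hy], h'⟩)
      · exact Or.inr (Or.inr ⟨by simp [hx, hy], h'⟩)
  opn x y := by
    rintro (⟨h, h'⟩ | ⟨h, h'⟩)
    · exact ⟨Aᶜ, A, hA.compl.2, hA.2, h, h', fun a ha b hb => Or.inl ⟨ha, hb⟩⟩
    · obtain ⟨U, V, hU, hV, hx, hy, h''⟩ := T.opn x y h'
      by_cases hxA : x ∈ A
      · refine ⟨U ∩ A, V ∩ A, hU.inter hA.2, hV.inter hA.2, ⟨hx, hxA⟩, ⟨hy, h.1 hxA⟩, ?_⟩
        rintro a ⟨ha, ha'⟩ b ⟨hb, hb'⟩
        exact Or.inr ⟨by simp [ha', hb'], h'' a ha b hb⟩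
      · refine ⟨U ∩ Aᶜ, V ∩ Aᶜ, hU.inter hA.compl.2, hV.inter hA.compl.2, ⟨hx, hxA⟩,
          ⟨hy, fun hyA => hxA (h.2 hyA)⟩, ?_⟩
        rintro a ⟨ha, ha'⟩ b ⟨hb, hb'⟩
        refine Or.inr ⟨?_, h'' a ha b hb⟩
        constructor
        · intro h1; exact absurd h1 ha'
        · intro h1; exact absurd h1 hb'

/-- In a king space every nonempty clopen set has a king. -/
theorem clopen_king (hk : KingSp X) (T : Tour X) {A : Set X} (hA : IsClopen A)
    (hne : A.Nonempty) : ∃ z ∈ A, ∀ x ∈ A, ∃ y ∈ A, T.le y z ∧ T.le x y := by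
  obtain ⟨z, hz⟩ := hk (splitTour T A hA)
  have key : ∀ {x y : X}, x ∈ A → (splitTour T A hA).le x y → y ∈ A ∧ T.le x y := by
    rintro x y hx (rfl | h | h)
    · exact ⟨hx, Or.inl rfl⟩
    · exact absurd hx h.1
    · exact ⟨h.1.1 hx, Or.inr h.2⟩
  obtain ⟨x0, hx0⟩ := hne
  obtain ⟨y0, h1, h2⟩ := hz x0
  have hy0 := (key hx0 h2).1
  have hzA := (key hy0 h1).1
  refine ⟨z, hzA, fun x hx => ?_⟩
  obtain ⟨y, h3, h4⟩ := hz x
  have h5 := key hx h4
  exact ⟨y, h5.1, (key h5.1 h3).2, h5.2⟩

/-! ### Quasi-components -/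

/-- The quasi-component of a point. -/
def qc (x : X) : Set X := {y | ∀ G : Set X, IsClopen G → x ∈ G → y ∈ G}

theorem mem_qc (x : X) : x ∈ qc x := fun _ _ h => h

theorem isClosed_qc (x : X) : IsClosed (qc x) := by
  have : qc x = ⋂ G : {G : Set X // IsClopen G ∧ x ∈ G}, (G : Set X) := by
    ext y
    simp only [mem_iInter]
    constructor
    · intro h G
      exact h G G.2.1 G.2.2
    · intro h G hG hx
      exact h ⟨G, hG, hx⟩
  rw [this]
  exact isClosed_iInter fun G => G.2.1.1

theorem qc_subset {x y : X} {G : Set X} (hG : IsClopen G) (hy : y ∈ qc x) (hyG : y ∈ G) :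
    qc x ⊆ G := by
  have hx : x ∈ G := by
    by_contra hx
    exact hy Gᶜ hG.compl hx hyG
  intro z hz
  exact hz G hG hx

theorem exists_clopen {x b : X} (hb : b ∉ qc x) : ∃ G : Set X, IsClopen G ∧ qc x ⊆ G ∧ b ∉ G := by
  unfold qc at hb
  simp only [mem_ofPred_eq, not_forall] at hb
  obtain ⟨G, hG, hx, hb⟩ := hb
  exact ⟨G, hG, qc_subset hG (mem_qc x) hx, hb⟩

theorem uniform (T : Tour X) {x b q q' : X} (hb : b ∉ qc x) (hq : q ∈ qc x) (hq' : q' ∈ qc x)
    (h : T.lt b q) : T.lt b q' := by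
  obtain ⟨G, hG, hQG, hbG⟩ := exists_clopen hb
  exact (qc_subset (T.clopen_right hG hbG) hq ⟨hQG hq, h⟩ hq').2

theorem uniform' (T : Tour X) {x b q q' : X} (hb : b ∉ qc x) (hq : q ∈ qc x) (hq' : q' ∈ qc x)
    (h : T.lt q b) : T.lt q' b := uniform T.op hb hq hq' h

theorem trans_qc (T : Tour X) {x0 a b x : X} (ha : a ∈ qc x0) (_hb : b ∈ qc x0)
    (hx : x ∈ qc x0) (h1 : T.lt x a) (h2 : T.lt a b) : T.lt x b := by
  have hS : IsClopen {z | T.lt z a ∧ T.lt b z} := by
    constructor
    · have : {z | T.lt z a ∧ T.lt b z} = {z | T.le z a} ∩ {z | T.le b z} := by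
        ext z
        constructor
        · rintro ⟨h3, h4⟩
          exact ⟨Or.inr h3, Or.inr h4⟩
        · rintro ⟨h3, h4⟩
          rcases h3 with h3 | h3
          · exfalso
            have h3' : z = a := h3
            subst h3'
            rcases h4 with h4 | h4
            · have h4' : b = z := h4
              subst h4'
              exact T.irrefl _ h2
            · exact T.asymm _ _ h2 h4
          · rcases h4 with h4 | h4
            · exfalso
              have h4' : b = z := h4
              subst h4'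
              exact T.asymm _ _ h2 h3
            · exact ⟨h3, h4⟩
      rw [this]
      exact (T.isClosed_le_left a).inter (T.isClosed_le_right b)
    · exact (T.isOpen_lt_left a).inter (T.isOpen_lt_right b)
  by_contra hn
  rw [T.not_lt_iff] at hn
  rcases hn with rfl | hn
  · exact T.asymm _ _ h1 h2
  · have := qc_subset hS hx ⟨h1, hn⟩ ha
    exact T.irrefl _ this.1

theorem lt_of_le_of_lt (T : Tour X) {x0 a b x : X} (ha : a ∈ qc x0) (hb : b ∈ qc x0)
    (hx : x ∈ qc x0) (h1 : T.le x a) (h2 : T.lt a b) : T.lt x b := by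
  rcases h1 with rfl | h1
  · exact h2
  · exact trans_qc T ha hb hx h1 h2

theorem lt_of_lt_of_le (T : Tour X) {x0 a b x : X} (ha : a ∈ qc x0) (hb : b ∈ qc x0)
    (hx : x ∈ qc x0) (h1 : T.lt x a) (h2 : T.le a b) : T.lt x b := by
  rcases h2 with rfl | h2
  · exact h1
  · exact trans_qc T ha hb hx h1 h2

/-- Points strictly between two points of a quasi-component belong to it. -/
theorem between_mem (T : Tour X) {x0 a b z : X} (ha : a ∈ qc x0) (hb : b ∈ qc x0)
    (h1 : T.lt a z) (h2 : T.lt z b) : z ∈ qc x0 := by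
  by_contra hz
  exact T.asymm _ _ h1 (uniform T hz hb ha h2)

end Pool.Agent.R584.King
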