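import Mathlib
import Pool.Agent.R584.King1

/-!
# Quasi-components of spaces with a tournament: connectedness, extreme points, intervals
-/

open Set Filter Topology

namespace Pool.Agent.R584.King

universe u

variable {X : Type u} [TopologicalSpace X]

open Tour

/-- No point of `F` lies between two points of `E` when `E, F` split the quasi-component. -/
theorem convex_aux (T : Tour X) {x0 : X} {E F : Set X} (hE : IsClosed E) (hF : IsClosed F)
    (hQ : qc x0 = E ∪ F) (hdisj : ∀ z ∈ E, z ∉ F) {a b f : X} (ha : a ∈ E) (hb : b ∈ E)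
    (hf : f ∈ F) (h1 : T.lt a f) (h2 : T.lt f b) : False := by
  have haQ : a ∈ qc x0 := by rw [hQ]; exact Or.inl ha
  have hbQ : b ∈ qc x0 := by rw [hQ]; exact Or.inl hb
  have hfQ : f ∈ qc x0 := by rw [hQ]; exact Or.inr hf
  let S : Set X := F ∩ ({z | T.lt a z} ∩ {z | T.lt z b})
  have hS : IsClopen S := by
    constructor
    · have : S = F ∩ ({z | T.le a z} ∩ {z | T.le z b}) := by
        ext z
        constructor
        · rintro ⟨h3, h4, h5⟩
          exact ⟨h3, Or.inr h4, Or.inr h5⟩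
        · rintro ⟨h3, h4, h5⟩
          refine ⟨h3, ?_, ?_⟩
          · rcases h4 with h4 | h4
            · exact absurd h3 (by rw [← show a = z from h4]; exact hdisj a ha)
            · exact h4
          · rcases h5 with h5 | h5
            · exact absurd h3 (by rw [show z = b from h5]; exact hdisj b hb)
            · exact h5
      rw [this]
      exact hF.inter ((T.isClosed_le_right a).inter (T.isClosed_le_left b))
    · have : S = ({z | T.lt a z} ∩ {z | T.lt z b}) ∩ Eᶜ := by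
        ext z
        constructor
        · rintro ⟨h3, h4⟩
          exact ⟨h4, fun hz => hdisj z hz h3⟩
        · rintro ⟨h3, h4⟩
          have : z ∈ qc x0 := between_mem T haQ hbQ h3.1 h3.2
          rw [hQ] at this
          rcases this with h5 | h5
          · exact absurd h5 h4
          · exact ⟨h5, h3⟩
      rw [this]
      exact ((T.isOpen_lt_right a).inter (T.isOpen_lt_left b)).inter hE.isOpen_compl
  have := qc_subset hS hfQ ⟨hf, h1, h2⟩ haQ
  exact hdisj a ha this.1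

theorem no_split (T : Tour X) {x0 : X} {E F : Set X} (hE : IsClosed E) (hF : IsClosed F)
    (hQ : qc x0 = E ∪ F) (hdisj : ∀ z ∈ E, z ∉ F) {e0 f0 : X} (he0 : e0 ∈ E) (hf0 : f0 ∈ F)
    (h : T.lt e0 f0) : False := by
  have hEQ : ∀ {z}, z ∈ E → z ∈ qc x0 := fun hz => by rw [hQ]; exact Or.inl hz
  have hFQ : ∀ {z}, z ∈ F → z ∈ qc x0 := fun hz => by rw [hQ]; exact Or.inr hz
  have hdisj' : ∀ z ∈ F, z ∉ E := fun z hz hz' => hdisj z hz' hz
  have hQ' : qc x0 = F ∪ E := by rw [hQ, union_comm]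
  have hEF : ∀ e ∈ E, ∀ f ∈ F, T.lt e f := by
    intro e he f hf
    by_contra hn
    rw [T.not_lt_iff] at hn
    rcases hn with rfl | hn
    · exact hdisj _ he hf
    · rcases T.total f e0 (fun h' => hdisj e0 he0 (h' ▸ hf)) with h' | h'
      · exact convex_aux T hF hE hQ' hdisj' hf hf0 he0 h' h
      · exact convex_aux T hE hF hQ hdisj he0 he hf h' hn
  let D : Set X := {z | ∃ e ∈ E, T.le z e}
  let D' : Set X := {z | ∃ f ∈ F, T.le f z}
  have hDD' : Dᶜ = D' := by
    ext z
    constructor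
    · intro hz
      by_cases hzQ : z ∈ qc x0
      · rw [hQ] at hzQ
        rcases hzQ with hz' | hz'
        · exact absurd ⟨z, hz', Or.inl rfl⟩ hz
        · exact ⟨z, hz', Or.inl rfl⟩
      · have h1 : ¬ T.lt z e0 := fun h' => hz ⟨e0, he0, Or.inr h'⟩
        rw [T.not_lt_iff] at h1
        rcases h1 with rfl | h1
        · exact absurd (hEQ he0) hzQ
        · exact ⟨f0, hf0, Or.inr (uniform' T hzQ (hEQ he0) (hFQ hf0) h1)⟩
    · rintro ⟨f, hf, h1⟩ ⟨e, he, h2⟩
      have h3 := hEF e he f hf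
      by_cases hzQ : z ∈ qc x0
      · exact T.asymm _ _ h3 (by
          rcases h1 with rfl | h1
          · rcases h2 with rfl | h2
            · exact absurd hf (hdisj _ he)
            · exact h2
          · exact lt_of_lt_of_le T hzQ (hEQ he) (hFQ hf) h1 h2)
      · rcases h1 with rfl | h1
        · exact hzQ (hFQ hf)
        · rcases h2 with rfl | h2
          · exact hzQ (hEQ he)
          · exact T.asymm _ _ h1 (uniform T hzQ (hEQ he) (hFQ hf) h2)
  have hDo : IsOpen D := by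
    rw [isOpen_iff_forall_mem_open]
    rintro z ⟨e, he, h1⟩
    rcases h1 with rfl | h1
    · refine ⟨Fᶜ ∩ {y | T.lt y f0}, ?_, hF.isOpen_compl.inter (T.isOpen_lt_left f0),
        hdisj _ he, hEF _ he _ hf0⟩
      rintro y ⟨hyF, hy⟩
      by_cases hyQ : y ∈ qc x0
      · rw [hQ] at hyQ
        rcases hyQ with hy' | hy'
        · exact ⟨y, hy', Or.inl rfl⟩
        · exact absurd hy' hyF
      · exact ⟨z, he, Or.inr (uniform T hyQ (hFQ hf0) (hEQ he) hy)⟩
    · exact ⟨{y | T.lt y e}, fun y hy => ⟨e, he, Or.inr hy⟩, T.isOpen_lt_left e, h1⟩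
  have hD'o : IsOpen D' := by
    rw [isOpen_iff_forall_mem_open]
    rintro z ⟨f, hf, h1⟩
    rcases h1 with rfl | h1
    · refine ⟨Eᶜ ∩ {y | T.lt e0 y}, ?_, hE.isOpen_compl.inter (T.isOpen_lt_right e0),
        hdisj' _ hf, hEF _ he0 _ hf⟩
      rintro y ⟨hyE, hy⟩
      by_cases hyQ : y ∈ qc x0
      · rw [hQ] at hyQ
        rcases hyQ with hy' | hy'
        · exact absurd hy' hyE
        · exact ⟨y, hy', Or.inl rfl⟩
      · exact ⟨f, hf, Or.inr (uniform' T hyQ (hEQ he0) (hFQ hf) hy)⟩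
    · exact ⟨{y | T.lt f y}, fun y hy => ⟨f, hf, Or.inr hy⟩, T.isOpen_lt_right f, h1⟩
  have hDc : IsClopen D := ⟨by rw [← isOpen_compl_iff, hDD']; exact hD'o, hDo⟩
  have h1 := qc_subset hDc (hEQ he0) ⟨e0, he0, Or.inl rfl⟩ (hFQ hf0)
  have h2 : f0 ∈ Dᶜ := by rw [hDD']; exact ⟨f0, hf0, Or.inl rfl⟩
  exact h2 h1

/-- Quasi-components are connected in a space with a tournament. -/
theorem isPreconnected_qc (T : Tour X) (x0 : X) : IsPreconnected (qc x0) := by
  rw [isPreconnected_closed_iff]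
  intro E F hE hF hsub hEne hFne
  by_contra hno
  obtain ⟨e0, he0Q, he0⟩ := hEne
  obtain ⟨f0, hf0Q, hf0⟩ := hFne
  have hE' : IsClosed (qc x0 ∩ E) := (isClosed_qc x0).inter hE
  have hF' : IsClosed (qc x0 ∩ F) := (isClosed_qc x0).inter hF
  have hQ : qc x0 = (qc x0 ∩ E) ∪ (qc x0 ∩ F) := by
    rw [← inter_union_distrib_left]
    exact (inter_eq_left.2 hsub).symm
  have hQ' : qc x0 = (qc x0 ∩ F) ∪ (qc x0 ∩ E) := by rw [union_comm]; exact hQ
  have hdisj : ∀ z ∈ qc x0 ∩ E, z ∉ qc x0 ∩ F := fun z hz hz' => hno ⟨z, hz.1, hz.2, hz'.2⟩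
  have hdisj' : ∀ z ∈ qc x0 ∩ F, z ∉ qc x0 ∩ E := fun z hz hz' => hno ⟨z, hz.1, hz'.2, hz.2⟩
  rcases T.total e0 f0 (fun h => hno ⟨e0, he0Q, he0, h ▸ hf0⟩) with h | h
  · exact no_split T hE' hF' hQ hdisj ⟨he0Q, he0⟩ ⟨hf0Q, hf0⟩ h
  · exact no_split T hF' hE' hQ' hdisj' ⟨hf0Q, hf0⟩ ⟨he0Q, he0⟩ h

/-- In a king space every quasi-component has a greatest element. -/
theorem exists_max (hk : KingSp X) (T : Tour X) (x0 : X) : ∃ M ∈ qc x0, ∀ q ∈ qc x0, T.le q M := by
  by_contra hno
  have hno' : ∀ M ∈ qc x0, ∃ q ∈ qc x0, T.lt M q := by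
    intro M hM
    by_contra hM'
    apply hno
    refine ⟨M, hM, fun q hq => ?_⟩
    rw [← T.not_lt_iff]
    exact fun h => hM' ⟨q, hq, h⟩
  have hx0 := mem_qc x0
  let N : Set X := (qc x0)ᶜ ∩ {z | T.lt x0 z}
  have hNo : IsOpen N := (isClosed_qc x0).isOpen_compl.inter (T.isOpen_lt_right x0)
  have hNco : IsOpen Nᶜ := by
    rw [isOpen_iff_forall_mem_open]
    intro b hb
    by_cases hbQ : b ∈ qc x0
    · obtain ⟨q', hq', hlt⟩ := hno' b hbQ
      refine ⟨{z | T.lt z q'}, ?_, T.isOpen_lt_left q', hlt⟩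
      rintro z hz ⟨hzQ, hz'⟩
      exact T.asymm _ _ hz' (uniform T hzQ hq' hx0 hz)
    · have h1 : ¬ T.lt x0 b := fun h => hb ⟨hbQ, h⟩
      rw [T.not_lt_iff] at h1
      rcases h1 with rfl | h1
      · exact absurd hx0 hbQ
      · refine ⟨{z | T.lt z x0}, ?_, T.isOpen_lt_left x0, h1⟩
        rintro z hz ⟨_, hz'⟩
        exact T.asymm _ _ hz hz'
  have hNc : IsClopen Nᶜ := ⟨hNo.isClosed_compl, hNco⟩
  have hQN : ∀ {z}, z ∈ qc x0 → z ∈ Nᶜ := fun hz hz' => hz'.1 hz
  have hbelow : ∀ {z}, z ∈ Nᶜ → z ∉ qc x0 → T.lt z x0 := by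
    intro z hz hzQ
    have h1 : ¬ T.lt x0 z := fun h => hz ⟨hzQ, h⟩
    rw [T.not_lt_iff] at h1
    rcases h1 with rfl | h1
    · exact absurd hx0 hzQ
    · exact h1
  have hup : ∀ {x y}, x ∈ qc x0 → y ∈ Nᶜ → T.le x y → y ∈ qc x0 := by
    intro x y hx hy hxy
    by_contra hyQ
    have h1 := uniform T hyQ hx0 hx (hbelow hy hyQ)
    rcases hxy with rfl | hxy
    · exact hyQ hx
    · exact T.asymm _ _ h1 hxy
  obtain ⟨z, hzN, hz⟩ := clopen_king hk T hNc ⟨x0, hQN hx0⟩
  have hzQ : z ∈ qc x0 := by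
    obtain ⟨y, hyN, h1, h2⟩ := hz x0 (hQN hx0)
    exact hup (hup hx0 hyN h2) hzN h1
  obtain ⟨x, hx, hzx⟩ := hno' z hzQ
  obtain ⟨y, hyN, h1, h2⟩ := hz x (hQN hx)
  have hyQ := hup hx hyN h2
  have h3 := lt_of_lt_of_le T hx hyQ hzQ hzx h2
  rcases h1 with rfl | h1
  · exact T.irrefl _ h3
  · exact T.asymm _ _ h1 h3

/-- Closed intervals of a quasi-component are connected. -/
theorem isPreconnected_Icc (T : Tour X) {x0 a b : X} (ha : a ∈ qc x0) (hb : b ∈ qc x0)
    (hab : T.lt a b) : IsPreconnected {z | z ∈ qc x0 ∧ T.le a z ∧ T.le z b} := by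
  -- first the asymmetric statement
  have key : ∀ E F : Set X, IsClosed E → IsClosed F →
      {z | z ∈ qc x0 ∧ T.le a z ∧ T.le z b} ⊆ E ∪ F →
      a ∈ E → ({z | z ∈ qc x0 ∧ T.le a z ∧ T.le z b} ∩ F).Nonempty →
      ({z | z ∈ qc x0 ∧ T.le a z ∧ T.le z b} ∩ (E ∩ F)).Nonempty := by
    intro E F hE hF hsub haE hFne
    by_contra hno
    set S : Set X := {z | z ∈ qc x0 ∧ T.le a z ∧ T.le z b} with hSdef
    have hSc : IsClosed S :=
      (isClosed_qc x0).inter ((T.isClosed_le_right a).inter (T.isClosed_le_left b))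
    have hbS : b ∈ S := ⟨hb, Or.inr hab, Or.inl rfl⟩
    have haS : a ∈ S := ⟨ha, Or.inl rfl, Or.inr hab⟩
    have haF : a ∉ F := fun h => hno ⟨a, haS, haE, h⟩
    by_cases hbE : b ∈ E
    · have hbF : b ∉ F := fun h => hno ⟨b, hbS, hbE, h⟩
      have hcl : IsClopen (S ∩ F) := by
        constructor
        · exact hSc.inter hF
        · have : S ∩ F = ({z | T.lt a z} ∩ {z | T.lt z b}) ∩ Eᶜ := by
            ext z
            constructor
            · rintro ⟨⟨h1, h2, h3⟩, h4⟩
              refine ⟨⟨?_, ?_⟩, fun h5 => hno ⟨z, ⟨h1, h2, h3⟩, h5, h4⟩⟩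
              · rcases h2 with rfl | h2
                · exact absurd h4 haF
                · exact h2
              · rcases h3 with rfl | h3
                · exact absurd h4 hbF
                · exact h3
            · rintro ⟨⟨h1, h2⟩, h3⟩
              have h4 : z ∈ S := ⟨between_mem T ha hb h1 h2, Or.inr h1, Or.inr h2⟩
              refine ⟨h4, ?_⟩
              rcases hsub h4 with h5 | h5
              · exact absurd h5 h3
              · exact h5
          rw [this]
          exact ((T.isOpen_lt_right a).inter (T.isOpen_lt_left b)).inter hE.isOpen_compl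
      obtain ⟨z, hz⟩ := hFne
      exact haF (qc_subset hcl hz.1.1 hz ha).2
    · have hbF : b ∈ F := by
        rcases hsub hbS with h | h
        · exact absurd h hbE
        · exact h
      have hcon := isPreconnected_qc T x0
      rw [isPreconnected_closed_iff] at hcon
      obtain ⟨z, hzQ, hz1, hz2⟩ := hcon ({z | T.le z a} ∪ (S ∩ E)) ({z | T.le b z} ∪ (S ∩ F))
        ((T.isClosed_le_left a).union (hSc.inter hE)) ((T.isClosed_le_right b).union (hSc.inter hF))
        (by
          intro z hz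
          by_cases h1 : T.le z a
          · exact Or.inl (Or.inl h1)
          · by_cases h2 : T.le b z
            · exact Or.inr (Or.inl h2)
            · rw [T.not_le_iff] at h1 h2
              have h3 : z ∈ S := ⟨hz, Or.inr h1, Or.inr h2⟩
              rcases hsub h3 with h4 | h4
              · exact Or.inl (Or.inr ⟨h3, h4⟩)
              · exact Or.inr (Or.inr ⟨h3, h4⟩))
        ⟨a, ha, Or.inl (Or.inl rfl)⟩ ⟨b, hb, Or.inl (Or.inl rfl)⟩
      rcases hz1 with hz1 | hz1 <;> rcases hz2 with hz2 | hz2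
      · have h1 := lt_of_le_of_lt T ha hb hzQ hz1 hab
        exact (T.not_lt_iff.2 hz2) h1
      · rcases hz1 with hz1 | hz1
        · have hz1' : z = a := hz1
          subst hz1'
          exact haF hz2.2
        · exact (T.not_le_iff.2 hz1) hz2.1.2.1
      · rcases hz2 with hz2 | hz2
        · have hz2' : b = z := hz2
          subst hz2'
          exact hbE hz1.2
        · exact (T.not_le_iff.2 hz2) hz1.1.2.2
      · exact hno ⟨z, hz1.1, hz1.2, hz2.2⟩
  rw [isPreconnected_closed_iff]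
  intro E F hE hF hsub hEne hFne
  have haS : a ∈ {z | z ∈ qc x0 ∧ T.le a z ∧ T.le z b} := ⟨ha, Or.inl rfl, Or.inr hab⟩
  rcases hsub haS with h | h
  · exact key E F hE hF hsub h hFne
  · obtain ⟨z, hz, hz1, hz2⟩ := key F E hF hE (by rw [union_comm]; exact hsub) h hEne
    exact ⟨z, hz, hz2, hz1⟩

end Pool.Agent.R584.King
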