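import Mathlib
import Pool.Agent.R584.King2

/-!
# Relatively feebly compact sets, tubes and monotone sequences of open sets
-/

open Set Filter Topology

namespace Pool.Agent.R584.King

universe u

variable {X : Type u} [TopologicalSpace X]

open Tour

/-- `U` is relatively feebly compact: every sequence of open subsets of `U`, infinitely many of
which are nonempty, has an accumulation point. -/
def RFC (U : Set X) : Prop :=
  ∀ O : ℕ → Set X, (∀ n, IsOpen (O n)) → (∀ n, O n ⊆ U) → {n | (O n).Nonempty}.Infinite →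
    ∃ w, ∀ W, IsOpen W → w ∈ W → {n | (O n ∩ W).Nonempty}.Infinite

theorem RFC.mono {U V : Set X} (h : RFC U) (hVU : V ⊆ U) : RFC V :=
  fun O hO hOV => h O hO fun n => (hOV n).trans hVU

theorem RFC.union {U V : Set X} (hU : RFC U) (hV : RFC V) (hUo : IsOpen U) (hVo : IsOpen V) :
    RFC (U ∪ V) := by
  intro O hO hsub hinf
  have h1 : {n | (O n).Nonempty} ⊆ {n | (O n ∩ U).Nonempty} ∪ {n | (O n ∩ V).Nonempty} := by
    rintro n ⟨x, hx⟩
    rcases hsub n hx with h | h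
    · exact Or.inl ⟨x, hx, h⟩
    · exact Or.inr ⟨x, hx, h⟩
  rcases Set.infinite_union.1 (hinf.mono h1) with h | h
  · obtain ⟨w, hw⟩ := hU (fun n => O n ∩ U) (fun n => (hO n).inter hUo)
      (fun n => inter_subset_right) h
    refine ⟨w, fun W hW hwW => (hw W hW hwW).mono ?_⟩
    rintro n ⟨x, hx, hx'⟩
    exact ⟨x, hx.1, hx'⟩
  · obtain ⟨w, hw⟩ := hV (fun n => O n ∩ V) (fun n => (hO n).inter hVo)
      (fun n => inter_subset_right) h
    refine ⟨w, fun W hW hwW => (hw W hW hwW).mono ?_⟩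
    rintro n ⟨x, hx, hx'⟩
    exact ⟨x, hx.1, hx'⟩

theorem RFC.empty : RFC (∅ : Set X) := by
  intro O _ hsub hinf
  exfalso
  obtain ⟨n, x, hx⟩ := hinf.nonempty
  exact hsub n hx

/-- Two distinct points have ordered neighbourhoods. -/
theorem sep (T : Tour X) {x y : X} (h : T.lt x y) : ∃ U V, IsOpen U ∧ IsOpen V ∧ x ∈ U ∧ y ∈ V ∧
    ∀ a ∈ U, ∀ b ∈ V, T.lt a b := T.opn x y h

theorem exists_gt_mem {s : Set ℕ} (hs : s.Infinite) (n : ℕ) : ∃ m ∈ s, n < m := hs.exists_gt n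

/-- Version of `RFC` along an infinite set of indices. -/
theorem RFC.along {U : Set X} (hU : RFC U) {O : ℕ → Set X} (hO : ∀ n, IsOpen (O n))
    {H : Set ℕ} (hH : H.Infinite) (hne : ∀ n ∈ H, (O n).Nonempty) (hsub : ∀ n ∈ H, O n ⊆ U) :
    ∃ w, ∀ W, IsOpen W → w ∈ W → {n | n ∈ H ∧ (O n ∩ W).Nonempty}.Infinite := by
  classical
  obtain ⟨w, hw⟩ := hU (fun n => if n ∈ H then O n else ∅)
    (fun n => by
      by_cases hn : n ∈ H
      · simpa [hn] using hO n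
      · simp [hn])
    (fun n => by
      by_cases hn : n ∈ H
      · simpa [hn] using hsub n hn
      · simp [hn])
    (hH.mono fun n hn => by
      show (if n ∈ H then O n else ∅).Nonempty
      rw [if_pos hn]
      exact hne n hn)
  refine ⟨w, fun W hW hwW => (hw W hW hwW).mono ?_⟩
  intro n hn
  have hn' : ((if n ∈ H then O n else ∅) ∩ W).Nonempty := hn
  by_cases hnH : n ∈ H
  · rw [if_pos hnH] at hn'
    exact ⟨hnH, hn'⟩
  · rw [if_neg hnH] at hn'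
    simp at hn'

/-- A monotone sequence of open sets in a relatively feebly compact set accumulates, in a strong
sense, at one point. -/
theorem mono_acc (T : Tour X) {U : Set X} (hU : RFC U) {O : ℕ → Set X} (hO : ∀ n, IsOpen (O n))
    {H : Set ℕ} (hH : H.Infinite) (hne : ∀ n ∈ H, (O n).Nonempty) (hsub : ∀ n ∈ H, O n ⊆ U)
    (hmono : ∀ n ∈ H, ∀ m ∈ H, n < m → ∀ a ∈ O n, ∀ b ∈ O m, T.lt a b) :
    ∃ w, ∀ W, IsOpen W → w ∈ W → {n | n ∈ H ∧ ¬ (O n ∩ W).Nonempty}.Finite := by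
  obtain ⟨w, hw⟩ := hU.along hO hH hne hsub
  refine ⟨w, fun W hW hwW => ?_⟩
  by_contra hinf
  have hinf' : {n | n ∈ H ∧ ¬ (O n ∩ W).Nonempty}.Infinite := hinf
  obtain ⟨w', hw'⟩ := hU.along hO hinf' (fun n hn => hne n hn.1) (fun n hn => hsub n hn.1)
  have hww' : w ≠ w' := by
    rintro rfl
    obtain ⟨n, ⟨_, hn1⟩, hn2⟩ := (hw' W hW hwW).nonempty
    exact hn1 hn2
  rcases T.total w w' hww' with h | h
  · obtain ⟨W1, W2, h1, h2, hw1, hw2, hlt⟩ := T.opn w w' h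
    obtain ⟨n, ⟨hnH, _⟩, b, hb, hb'⟩ := (hw' W2 h2 hw2).nonempty
    obtain ⟨m, ⟨hmH, a, ha, ha'⟩, hnm⟩ := (hw W1 h1 hw1).exists_gt n
    exact T.asymm _ _ (hmono n hnH m hmH hnm b hb a ha) (hlt a ha' b hb')
  · obtain ⟨W1, W2, h1, h2, hw1, hw2, hlt⟩ := T.opn w' w h
    obtain ⟨n, hnH, b, hb, hb'⟩ := (hw W2 h2 hw2).nonempty
    obtain ⟨m, ⟨⟨hmH, _⟩, a, ha, ha'⟩, hnm⟩ := (hw' W1 h1 hw1).exists_gt n
    exact T.asymm _ _ (hmono n hnH m hmH hnm b hb a ha) (hlt a ha' b hb')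

/-- No oscillation along an increasing sequence of open sets. -/
theorem no_osc (T : Tour X) {U : Set X} (hU : RFC U) {V V' : ℕ → Set X}
    (hV : ∀ n, IsOpen (V n)) (hV' : ∀ n, IsOpen (V' n)) (hVne : ∀ n, (V n).Nonempty)
    (hV'ne : ∀ n, (V' n).Nonempty) (hVU : ∀ n, V n ⊆ U) (hV'U : ∀ n, V' n ⊆ U)
    {c : X → ℝ} (hc : Continuous c) (h1 : ∀ n, ∀ a ∈ V n, c a < 1 / 2 - 1 / 8)
    (h2 : ∀ n, ∀ a ∈ V' n, 1 / 2 + 1 / 8 < c a)
    (h3 : ∀ n m, n < m → ∀ a ∈ V n, ∀ b ∈ V' m, T.lt a b)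
    (h4 : ∀ n m, n < m → ∀ a ∈ V' n, ∀ b ∈ V m, T.lt a b) : False := by
  obtain ⟨w, hw⟩ := hU V hV hVU (by
    have : {n | (V n).Nonempty} = univ := by ext n; simp [hVne n]
    rw [this]; exact infinite_univ)
  obtain ⟨w', hw'⟩ := hU V' hV' hV'U (by
    have : {n | (V' n).Nonempty} = univ := by ext n; simp [hV'ne n]
    rw [this]; exact infinite_univ)
  have hcw : c w < 1 / 2 := by
    by_contra hn
    obtain ⟨n, a, ha, ha'⟩ := (hw {z | 1 / 2 - 1 / 8 < c z} (isOpen_lt continuous_const hc)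
      (by show 1 / 2 - 1 / 8 < c w; linarith)).nonempty
    have := h1 n a ha
    have ha'' : 1 / 2 - 1 / 8 < c a := ha'
    linarith
  have hcw' : 1 / 2 < c w' := by
    by_contra hn
    obtain ⟨n, a, ha, ha'⟩ := (hw' {z | c z < 1 / 2 + 1 / 8} (isOpen_lt hc continuous_const)
      (by show c w' < 1 / 2 + 1 / 8; linarith)).nonempty
    have := h2 n a ha
    have ha'' : c a < 1 / 2 + 1 / 8 := ha'
    linarith
  have hww' : w ≠ w' := by
    rintro rfl
    linarith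
  rcases T.total w w' hww' with h | h
  · obtain ⟨W1, W2, ho1, ho2, hw1, hw2, hlt⟩ := T.opn w w' h
    obtain ⟨n, b, hb, hb'⟩ := (hw' W2 ho2 hw2).nonempty
    obtain ⟨m, ⟨a, ha, ha'⟩, hnm⟩ := (hw W1 ho1 hw1).exists_gt n
    exact T.asymm _ _ (h4 n m hnm b hb a ha) (hlt a ha' b hb')
  · obtain ⟨W1, W2, ho1, ho2, hw1, hw2, hlt⟩ := T.opn w' w h
    obtain ⟨n, b, hb, hb'⟩ := (hw W2 ho2 hw2).nonempty
    obtain ⟨m, ⟨a, ha, ha'⟩, hnm⟩ := (hw' W1 ho1 hw1).exists_gt n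
    exact T.asymm _ _ (h3 n m hnm b hb a ha) (hlt a ha' b hb')

/-- Local relative feeble compactness. -/
def LocRFC (X : Type u) [TopologicalSpace X] : Prop := ∀ x : X, ∃ U, IsOpen U ∧ x ∈ U ∧ RFC U

/-- The data produced in one step of the proof of the tube lemma. -/
structure TubeStep (T : Tour X) (y : X) (E : Set X) (A : Set X) where
  O : Set X
  E' : Set X
  A' : Set X
  hO : IsOpen O
  hE' : IsOpen E'
  hA' : IsOpen A'
  hyA' : y ∈ A'
  hOA : O ⊆ A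
  hEE : E' ⊆ E
  hAA : A' ⊆ A
  hOne : O.Nonempty
  hEne : E'.Nonempty
  h1 : ∀ e ∈ E', ∀ o ∈ O, T.lt e o
  h2 : ∀ a ∈ A', ∀ e ∈ E', T.lt a e
  h3 : (∀ o ∈ O, ∀ a ∈ A', T.lt o a) ∨ (∀ a ∈ A', ∀ o ∈ O, T.lt a o)

theorem exists_tubeStep (T : Tour X) {y : X} {G E A : Set X}
    (hlt : ∀ g ∈ G, T.lt y g) (hEG : E ⊆ G) (hE : IsOpen E)
    (hA : IsOpen A) (hyA : y ∈ A) (hAG : A ⊆ Gᶜ)
    (hno : ¬ ∃ V, IsOpen V ∧ y ∈ V ∧ ∀ v ∈ V, ∀ e ∈ E, T.lt v e) :
    Nonempty (TubeStep T y E A) := by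
  have h1 : ∃ a ∈ A, ∃ e ∈ E, ¬ T.lt a e := by
    by_contra h
    push Not at h
    exact hno ⟨A, hA, hyA, h⟩
  obtain ⟨a, ha, e, he, hae⟩ := h1
  have hea : T.lt e a := by
    rw [T.not_lt_iff] at hae
    rcases hae with rfl | hae
    · exact absurd (hEG he) (hAG ha)
    · exact hae
  have hye := hlt e (hEG he)
  have hya : y ≠ a := by
    rintro rfl
    exact T.asymm _ _ hye hea
  obtain ⟨E1, O1, hE1, hO1, heE1, haO1, h1⟩ := T.opn e a hea
  obtain ⟨A2, E2, hA2, hE2, hyA2, heE2, h2⟩ := T.opn y e hye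
  rcases T.total y a hya with h | h
  · obtain ⟨A3, O3, hA3, hO3, hyA3, haO3, h3⟩ := T.opn y a h
    exact ⟨{
      O := A ∩ O1 ∩ O3
      E' := E ∩ E1 ∩ E2
      A' := A ∩ A2 ∩ A3
      hO := (hA.inter hO1).inter hO3
      hE' := (hE.inter hE1).inter hE2
      hA' := (hA.inter hA2).inter hA3
      hyA' := ⟨⟨hyA, hyA2⟩, hyA3⟩
      hOA := fun z hz => hz.1.1
      hEE := fun z hz => hz.1.1
      hAA := fun z hz => hz.1.1
      hOne := ⟨a, ⟨ha, haO1⟩, haO3⟩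
      hEne := ⟨e, ⟨he, heE1⟩, heE2⟩
      h1 := fun e he o ho => h1 e he.1.2 o ho.1.2
      h2 := fun a ha e he => h2 a ha.1.2 e he.2
      h3 := Or.inr fun a ha o ho => h3 a ha.2 o ho.2 }⟩
  · obtain ⟨O3, A3, hO3, hA3, haO3, hyA3, h3⟩ := T.opn a y h
    exact ⟨{
      O := A ∩ O1 ∩ O3
      E' := E ∩ E1 ∩ E2
      A' := A ∩ A2 ∩ A3
      hO := (hA.inter hO1).inter hO3
      hE' := (hE.inter hE1).inter hE2
      hA' := (hA.inter hA2).inter hA3
      hyA' := ⟨⟨hyA, hyA2⟩, hyA3⟩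
      hOA := fun z hz => hz.1.1
      hEE := fun z hz => hz.1.1
      hAA := fun z hz => hz.1.1
      hOne := ⟨a, ⟨ha, haO1⟩, haO3⟩
      hEne := ⟨e, ⟨he, heE1⟩, heE2⟩
      h1 := fun e he o ho => h1 e he.1.2 o ho.1.2
      h2 := fun a ha e he => h2 a ha.1.2 e he.2
      h3 := Or.inl fun o ho a ha => h3 o ho.2 a ha.2 }⟩

/-- Tube lemma: if `y` lies below the clopen set `G` and `E ⊆ G` is open and relatively feebly
compact, then a neighbourhood of `y` lies below `E`. -/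
theorem tube (hloc : LocRFC X) (T : Tour X) {y : X} {G E : Set X} (hG : IsClopen G)
    (hyG : y ∉ G) (hlt : ∀ g ∈ G, T.lt y g) (hEG : E ⊆ G) (hE : IsOpen E) (hEc : RFC E) :
    ∃ V, IsOpen V ∧ y ∈ V ∧ ∀ v ∈ V, ∀ e ∈ E, T.lt v e := by
  classical
  by_contra hno
  obtain ⟨U, hU, hyU, hUc⟩ := hloc y
  -- the sequence of neighbourhoods of `y`
  let St : Type u := {A : Set X // IsOpen A ∧ y ∈ A ∧ A ⊆ U ∩ Gᶜ}
  have hstep : ∀ A : St, Nonempty (TubeStep T y E A.1) := fun A =>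
    exists_tubeStep T hlt hEG hE A.2.1 A.2.2.1 (fun z hz => (A.2.2.2 hz).2) hno
  let step : ∀ A : St, TubeStep T y E A.1 := fun A => Classical.choice (hstep A)
  let next : St → St := fun A => ⟨(step A).A', (step A).hA', (step A).hyA',
    (step A).hAA.trans A.2.2.2⟩
  let A : ℕ → St := fun n => next^[n] ⟨U ∩ Gᶜ, hU.inter hG.compl.2, ⟨hyU, hyG⟩, Subset.rfl⟩
  have hAsucc : ∀ n, (A (n + 1)).1 = (step (A n)).A' := by
    intro n
    show (next^[n + 1] _).1 = _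
    rw [Function.iterate_succ_apply']
  have hAmono : ∀ n m, n ≤ m → (A m).1 ⊆ (A n).1 := by
    intro n m hnm
    induction m, hnm using Nat.le_induction with
    | base => exact Subset.rfl
    | succ m _ ih =>
      rw [hAsucc]
      exact (step (A m)).hAA.trans ih
  let O : ℕ → Set X := fun n => (step (A n)).O
  let E' : ℕ → Set X := fun n => (step (A n)).E'
  have hOA : ∀ n, O n ⊆ (A n).1 := fun n => (step (A n)).hOA
  have hOA' : ∀ n m, n < m → O m ⊆ (step (A n)).A' := by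
    intro n m hnm
    rw [← hAsucc]
    exact (hOA m).trans (hAmono _ _ hnm)
  have hOU : ∀ n, O n ⊆ U := fun n z hz => ((A n).2.2.2 (hOA n hz)).1
  have hOG : ∀ n, O n ⊆ Gᶜ := fun n z hz => ((A n).2.2.2 (hOA n hz)).2
  have hOo : ∀ n, IsOpen (O n) := fun n => (step (A n)).hO
  have hEo : ∀ n, IsOpen (E' n) := fun n => (step (A n)).hE'
  have hEsub : ∀ n, E' n ⊆ E := fun n => (step (A n)).hEE
  have hEO : ∀ n, ∀ e ∈ E' n, ∀ o ∈ O n, T.lt e o := fun n => (step (A n)).h1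
  have hOE : ∀ n m, n < m → ∀ o ∈ O m, ∀ e ∈ E' n, T.lt o e := fun n m hnm o ho e he =>
    (step (A n)).h2 o (hOA' n m hnm ho) e he
  -- the two types
  let H1 : Set ℕ := {n | ∀ o ∈ O n, ∀ a ∈ (step (A n)).A', T.lt o a}
  let H2 : Set ℕ := {n | ∀ a ∈ (step (A n)).A', ∀ o ∈ O n, T.lt a o}
  have hH : H1 ∪ H2 = univ := by
    ext n
    simp only [mem_univ, iff_true]
    exact (step (A n)).h3
  have hw : ∃ H : Set ℕ, H.Infinite ∧ ∃ w, ∀ W, IsOpen W → w ∈ W →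
      {n | n ∈ H ∧ ¬ (O n ∩ W).Nonempty}.Finite := by
    have h1 : (H1 ∪ H2).Infinite := by rw [hH]; exact infinite_univ
    rcases Set.infinite_union.1 h1 with h | h
    · refine ⟨H1, h, mono_acc T hUc hOo h (fun n _ => (step (A n)).hOne) (fun n _ => hOU n) ?_⟩
      intro n hn m _ hnm a ha b hb
      exact hn a ha b (hOA' n m hnm hb)
    · refine ⟨H2, h, mono_acc T.op hUc hOo h (fun n _ => (step (A n)).hOne) (fun n _ => hOU n) ?_⟩
      intro n hn m _ hnm a ha b hb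
      exact hn b (hOA' n m hnm hb) a ha
  obtain ⟨H, hHinf, w, hw⟩ := hw
  obtain ⟨e, he⟩ := hEc.along hEo hHinf (fun n _ => (step (A n)).hEne) (fun n _ => hEsub n)
  have heG : e ∈ G := by
    by_contra heG
    obtain ⟨n, _, z, hz, hz'⟩ := (he Gᶜ hG.compl.2 heG).nonempty
    exact hz' (hEG (hEsub n hz))
  have hwG : w ∉ G := by
    intro hwG
    have h1 := hw G hG.2 hwG
    have h2 : {n | n ∈ H ∧ ¬ (O n ∩ G).Nonempty} = H := by
      ext n
      constructor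
      · exact fun h => h.1
      · intro hn
        refine ⟨hn, ?_⟩
        rintro ⟨z, hz, hz'⟩
        exact hOG n hz hz'
    rw [h2] at h1
    exact hHinf h1
  have hwe : w ≠ e := fun h => hwG (h ▸ heG)
  -- good indices for a pair of neighbourhoods
  have hgood : ∀ W W' : Set X, IsOpen W → w ∈ W → IsOpen W' → e ∈ W' →
      {n | (O n ∩ W).Nonempty ∧ (E' n ∩ W').Nonempty}.Infinite := by
    intro W W' hW hwW hW' heW'
    have h1 := he W' hW' heW'
    have h2 := hw W hW hwW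
    refine (h1.sdiff h2).mono ?_
    rintro n ⟨⟨hnH, hn⟩, hn'⟩
    refine ⟨?_, hn⟩
    by_contra h
    exact hn' ⟨hnH, h⟩
  rcases T.total w e hwe with h | h
  · obtain ⟨W, W', hW, hW', hwW, heW', hlt'⟩ := T.opn w e h
    obtain ⟨n, ⟨o, ho, ho'⟩, e', he', he''⟩ := (hgood W W' hW hwW hW' heW').nonempty
    exact T.asymm _ _ (hlt' o ho' e' he'') (hEO n e' he' o ho)
  · obtain ⟨W', W, hW', hW, heW', hwW, hlt'⟩ := T.opn e w h
    have hinf := hgood W W' hW hwW hW' heW'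
    obtain ⟨n, _, e', he', he''⟩ := hinf.nonempty
    obtain ⟨m, ⟨⟨o, ho, ho'⟩, _⟩, hnm⟩ := hinf.exists_gt n
    exact T.asymm _ _ (hlt' e' he'' o ho') (hOE n m hnm o ho e' he')

/-- The trace of the lower rays on a clopen relatively feebly compact set is locally constant. -/
theorem trace_locConst (hloc : LocRFC X) (T : Tour X) {P : Set X} (hP : IsClopen P) (hPc : RFC P) :
    IsLocallyConstant (fun w : X => {x | x ∈ P ∧ w ∉ P ∧ T.lt x w}) := by
  rw [IsLocallyConstant.iff_exists_open]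
  intro w
  by_cases hw : w ∈ P
  · refine ⟨P, hP.2, hw, fun v hv => ?_⟩
    ext x
    simp [hw, hv]
  · have hR := T.clopen_right hP hw
    have hL := T.clopen_left hP hw
    obtain ⟨V1, hV1, hwV1, h1⟩ := tube hloc T hR (fun h => hw h.1) (fun g hg => hg.2)
      Subset.rfl hR.2 (hPc.mono inter_subset_left)
    obtain ⟨V2, hV2, hwV2, h2⟩ := tube hloc T.op hL (fun h => hw h.1) (fun g hg => hg.2)
      Subset.rfl hL.2 (hPc.mono inter_subset_left)
    refine ⟨V1 ∩ V2 ∩ Pᶜ, (hV1.inter hV2).inter hP.compl.2, ⟨⟨hwV1, hwV2⟩, hw⟩, ?_⟩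
    rintro v ⟨⟨hv1, hv2⟩, hvP⟩
    ext x
    constructor
    · rintro ⟨hx, _, hxv⟩
      refine ⟨hx, hw, ?_⟩
      by_contra hn
      rw [T.not_lt_iff] at hn
      rcases hn with rfl | hn
      · exact hw hx
      · exact T.asymm _ _ hxv (h1 v hv1 x ⟨hx, hn⟩)
    · rintro ⟨hx, _, hxw⟩
      exact ⟨hx, hvP, h2 v hv2 x ⟨hx, hxw⟩⟩

end Pool.Agent.R584.King
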