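import Mathlib
import Pool.Agent.R584.King3

/-!
# Compactness of quasi-components and clopen bases
-/

open Set Filter Topology

namespace Pool.Agent.R584.King

universe u

variable {X : Type u} [TopologicalSpace X]

open Tour

theorem exists_between_qc (T : Tour X) {x0 a b : X} (ha : a ∈ qc x0) (hb : b ∈ qc x0)
    (hab : T.lt a b) : ∃ c ∈ qc x0, T.lt a c ∧ T.lt c b := by
  by_contra hno
  have hcon := isPreconnected_qc T x0
  rw [isPreconnected_closed_iff] at hcon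
  obtain ⟨z, hzQ, hz1, hz2⟩ := hcon {z | T.le z a} {z | T.le b z} (T.isClosed_le_left a)
    (T.isClosed_le_right b)
    (by
      intro z hz
      by_cases h1 : T.le z a
      · exact Or.inl h1
      · by_cases h2 : T.le b z
        · exact Or.inr h2
        · rw [T.not_le_iff] at h1 h2
          exact absurd ⟨z, hz, h1, h2⟩ hno)
    ⟨a, ha, Or.inl rfl⟩ ⟨b, hb, Or.inl rfl⟩
  exact (T.not_lt_iff.2 hz2) (lt_of_le_of_lt T ha hb hzQ hz1 hab)

/-- Small closed intervals to the right of a point of a quasi-component. -/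
theorem right_small [CompletelyRegularSpace X] (hloc : LocRFC X) (T : Tour X) {x0 s : X}
    (hs : s ∈ qc x0) {O : Set X} (hO : IsOpen O) (hsO : s ∈ O)
    (hmax : ∃ s' ∈ qc x0, T.lt s s') :
    ∃ b ∈ qc x0, T.lt s b ∧ ∀ z ∈ qc x0, T.le s z → T.le z b → z ∈ O := by
  classical
  by_contra hno
  obtain ⟨U, hU, hsU, hUc⟩ := hloc s
  have hO'c : IsClosed (O ∩ U)ᶜ := (hO.inter hU).isClosed_compl
  obtain ⟨f0, hf0, hf0s, hf01⟩ := CompletelyRegularSpace.completely_regular s (O ∩ U)ᶜ hO'c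
    (fun h => h ⟨hsO, hsU⟩)
  let f : X → ℝ := fun x => (f0 x : ℝ)
  have hf : Continuous f := continuous_subtype_val.comp hf0
  have hfs : f s = 0 := by show (f0 s : ℝ) = 0; rw [hf0s]; rfl
  have hf1 : ∀ z, z ∉ O ∩ U → f z = 1 := by
    intro z hz
    show (f0 z : ℝ) = 1
    rw [hf01 hz]
    rfl
  have hout : ∀ b ∈ qc x0, T.lt s b → ∃ y ∈ qc x0, T.le s y ∧ T.le y b ∧ f y = 1 := by
    intro b hb hsb
    by_contra h
    apply hno
    refine ⟨b, hb, hsb, fun z hz h1 h2 => ?_⟩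
    by_contra hzO
    exact h ⟨z, hz, h1, h2, hf1 z fun h' => hzO h'.1⟩
  have hstep : ∀ b : {b : X // b ∈ qc x0 ∧ T.lt s b}, ∃ b' : {b : X // b ∈ qc x0 ∧ T.lt s b},
      ∃ p q : X, p ∈ qc x0 ∧ q ∈ qc x0 ∧ T.lt b'.1 p ∧ T.lt p q ∧ T.lt q b.1 ∧ f p = 1 / 4 ∧
        f q = 3 / 4 := by
    rintro ⟨b, hb, hsb⟩
    obtain ⟨b1, hb1, hsb1, hb1b⟩ := exists_between_qc T hs hb hsb
    obtain ⟨y, hy, hsy, hyb1, hfy⟩ := hout b1 hb1 hsb1
    have hsy' : T.lt s y := by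
      rcases hsy with rfl | h
      · exfalso; rw [hfs] at hfy; norm_num at hfy
      · exact h
    obtain ⟨q, ⟨hq, hsq, hqy⟩, hfq⟩ := (isPreconnected_Icc T hs hy hsy').intermediate_value
      ⟨hs, Or.inl rfl, Or.inr hsy'⟩ ⟨hy, Or.inr hsy', Or.inl rfl⟩ hf.continuousOn
      (show (3 / 4 : ℝ) ∈ Icc (f s) (f y) by rw [hfs, hfy]; constructor <;> norm_num)
    have hsq' : T.lt s q := by
      rcases hsq with rfl | h
      · exfalso; rw [hfs] at hfq; norm_num at hfq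
      · exact h
    have hqy' : T.lt q y := by
      rcases hqy with rfl | h
      · exfalso; rw [hfy] at hfq; norm_num at hfq
      · exact h
    obtain ⟨p, ⟨hp, hsp, hpq⟩, hfp⟩ := (isPreconnected_Icc T hs hq hsq').intermediate_value
      ⟨hs, Or.inl rfl, Or.inr hsq'⟩ ⟨hq, Or.inr hsq', Or.inl rfl⟩ hf.continuousOn
      (show (1 / 4 : ℝ) ∈ Icc (f s) (f q) by rw [hfs, hfq]; constructor <;> norm_num)
    have hsp' : T.lt s p := by
      rcases hsp with rfl | h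
      · exfalso; rw [hfs] at hfp; norm_num at hfp
      · exact h
    have hpq' : T.lt p q := by
      rcases hpq with rfl | h
      · exfalso; rw [hfq] at hfp; norm_num at hfp
      · exact h
    obtain ⟨b2, hb2, hsb2, hb2p⟩ := exists_between_qc T hs hp hsp'
    refine ⟨⟨b2, hb2, hsb2⟩, p, q, hp, hq, hb2p, hpq', ?_, hfp, hfq⟩
    exact trans_qc T hy hb hq hqy' (lt_of_le_of_lt T hb1 hb hy hyb1 hb1b)
  choose next P Q hP hQ h1 h2 h3 h4 h5 using hstep
  obtain ⟨s', hs', hss'⟩ := hmax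
  let b : ℕ → {b : X // b ∈ qc x0 ∧ T.lt s b} := fun n => next^[n] ⟨s', hs', hss'⟩
  have hbsucc : ∀ n, b (n + 1) = next (b n) := by
    intro n
    show next^[n + 1] _ = _
    rw [Function.iterate_succ_apply']
  have hblt : ∀ n, T.lt (b (n + 1)).1 (b n).1 := by
    intro n
    rw [hbsucc]
    exact trans_qc T (hP _) (b n).2.1 (next (b n)).2.1 (h1 (b n))
      (trans_qc T (hQ _) (b n).2.1 (hP _) (h2 (b n)) (h3 (b n)))
  have hble : ∀ n m, n ≤ m → T.le (b m).1 (b n).1 := by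
    intro n m hnm
    induction m, hnm using Nat.le_induction with
    | base => exact Or.inl rfl
    | succ m _ ih => exact Or.inr (lt_of_lt_of_le T (b m).2.1 (b n).2.1 (b (m + 1)).2.1 (hblt m) ih)
  let V : ℕ → Set X := fun n => ({z | T.lt (b (n + 1)).1 z} ∩ {z | T.lt z (b n).1}) ∩
    {z | f z < 1 / 2 - 1 / 8}
  let V' : ℕ → Set X := fun n => ({z | T.lt (b (n + 1)).1 z} ∩ {z | T.lt z (b n).1}) ∩
    ({z | 1 / 2 + 1 / 8 < f z} ∩ {z | f z < 1})
  have hbetw : ∀ n m, n < m → ∀ a c, T.lt (b (n + 1)).1 a → T.lt a (b n).1 →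
      T.lt (b (m + 1)).1 c → T.lt c (b m).1 → T.lt c a := by
    intro n m hnm a c ha1 ha2 hc1 hc2
    have haQ := between_mem T (b (n + 1)).2.1 (b n).2.1 ha1 ha2
    have hcQ := between_mem T (b (m + 1)).2.1 (b m).2.1 hc1 hc2
    have h6 : T.lt c (b (n + 1)).1 :=
      lt_of_lt_of_le T (b m).2.1 (b (n + 1)).2.1 hcQ hc2 (hble (n + 1) m hnm)
    exact trans_qc T (b (n + 1)).2.1 haQ hcQ h6 ha1
  refine no_osc T.op hUc (V := V) (V' := V') ?_ ?_ ?_ ?_ ?_ ?_ hf ?_ ?_ ?_ ?_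
  · intro n
    exact ((T.isOpen_lt_right _).inter (T.isOpen_lt_left _)).inter
      (isOpen_lt hf continuous_const)
  · intro n
    exact ((T.isOpen_lt_right _).inter (T.isOpen_lt_left _)).inter
      ((isOpen_lt continuous_const hf).inter (isOpen_lt hf continuous_const))
  · intro n
    refine ⟨P (b n), ⟨?_, ?_⟩, ?_⟩
    · show T.lt (b (n + 1)).1 _
      rw [hbsucc]
      exact h1 _
    · exact trans_qc T (hQ _) (b n).2.1 (hP _) (h2 (b n)) (h3 (b n))
    · show f (P (b n)) < _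
      rw [h4]
      norm_num
  · intro n
    refine ⟨Q (b n), ⟨?_, h3 _⟩, ?_, ?_⟩
    · show T.lt (b (n + 1)).1 _
      rw [hbsucc]
      exact trans_qc T (hP _) (hQ _) (next (b n)).2.1 (h1 _) (h2 _)
    · show _ < f (Q (b n))
      rw [h5]
      norm_num
    · show f (Q (b n)) < _
      rw [h5]
      norm_num
  · intro n z hz
    by_contra hzU
    have := hf1 z fun h => hzU h.2
    have h6 : f z < 1 / 2 - 1 / 8 := hz.2
    rw [this] at h6
    norm_num at h6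
  · intro n z hz
    by_contra hzU
    have := hf1 z fun h => hzU h.2
    have h6 : f z < 1 := hz.2.2
    rw [this] at h6
    norm_num at h6
  · intro n a ha
    exact ha.2
  · intro n a ha
    exact ha.2.1
  · intro n m hnm a ha c hc
    exact hbetw n m hnm a c ha.1.1 ha.1.2 hc.1.1 hc.1.2
  · intro n m hnm a ha c hc
    exact hbetw n m hnm a c ha.1.1 ha.1.2 hc.1.1 hc.1.2

theorem conv_of_max [CompletelyRegularSpace X] (hloc : LocRFC X) (T : Tour X) {x0 s : X}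
    (hs : s ∈ qc x0) (𝒰 : Ultrafilter X) (hUQ : ∀ᶠ y in (𝒰 : Filter X), y ∈ qc x0)
    (h1 : ∀ᶠ y in (𝒰 : Filter X), T.le s y)
    (h2 : ∀ b ∈ qc x0, T.lt s b → ∀ᶠ y in (𝒰 : Filter X), T.le y b)
    (h3 : ∃ s' ∈ qc x0, T.lt s s') : (𝒰 : Filter X) ≤ 𝓝 s := by
  rw [le_nhds_iff]
  intro O hsO hO
  obtain ⟨b, hb, hsb, hbO⟩ := right_small hloc T hs hO hsO h3
  filter_upwards [hUQ, h1, h2 b hb hsb] with y hy1 hy2 hy3
  exact hbO y hy1 hy2 hy3

/-- Quasi-components of a locally feebly compact king space are compact. -/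
theorem isCompact_qc [CompletelyRegularSpace X] (hk : KingSp X) (hloc : LocRFC X) (T : Tour X)
    (x0 : X) : IsCompact (qc x0) := by
  rw [isCompact_iff_ultrafilter_le_nhds]
  intro 𝒰 hU
  have hUQ : ∀ᶠ y in (𝒰 : Filter X), y ∈ qc x0 := hU (mem_principal_self _)
  obtain ⟨M, hM, hMmax⟩ := exists_max hk T x0
  obtain ⟨m, hm, hmmin⟩ := exists_max hk T.op x0
  let A : Set X := {x | x ∈ qc x0 ∧ ∀ᶠ y in (𝒰 : Filter X), T.le x y}
  let B : Set X := {x | x ∈ qc x0 ∧ ∀ᶠ y in (𝒰 : Filter X), T.le y x}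
  have hMB : M ∈ B := ⟨hM, hUQ.mono fun y hy => hMmax y hy⟩
  have hmA : m ∈ A := ⟨hm, hUQ.mono fun y hy => (T.op_le _ _).1 (hmmin y hy)⟩
  have hAB : ∀ x ∈ qc x0, x ∈ A ∨ x ∈ B := by
    intro x hx
    have h1 : ∀ᶠ y in (𝒰 : Filter X), T.le x y ∨ T.le y x := by
      refine Eventually.of_forall fun y => ?_
      by_cases h : T.le x y
      · exact Or.inl h
      · rw [T.not_le_iff] at h
        exact Or.inr (Or.inr h)
    rcases Ultrafilter.eventually_or.1 h1 with h | h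
    · exact Or.inl ⟨hx, h⟩
    · exact Or.inr ⟨hx, h⟩
  by_cases hint : ∃ x, x ∈ A ∧ x ∈ B
  · obtain ⟨x, hxA, hxB⟩ := hint
    refine ⟨x, hxA.1, ?_⟩
    have h1 : ∀ᶠ y in (𝒰 : Filter X), y = x := by
      filter_upwards [hxA.2, hxB.2] with y h1 h2
      rcases h1 with h1 | h1
      · exact h1.symm
      · rcases h2 with h2 | h2
        · exact h2
        · exact absurd h2 (T.asymm _ _ h1)
    rw [le_nhds_iff]
    intro O hxO _
    filter_upwards [h1] with y hy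
    rw [hy]
    exact hxO
  · by_cases hAmax : ∃ s ∈ A, ∀ a ∈ A, ¬ T.lt s a
    · obtain ⟨s, hsA, hsmax⟩ := hAmax
      refine ⟨s, hsA.1, conv_of_max hloc T hsA.1 𝒰 hUQ hsA.2 ?_ ?_⟩
      · intro b hb hsb
        rcases hAB b hb with h | h
        · exact absurd hsb (hsmax b h)
        · exact h.2
      · refine ⟨M, hM, ?_⟩
        rcases hMmax s hsA.1 with rfl | h
        · exact absurd ⟨s, hsA, hMB⟩ hint
        · exact h
    · by_cases hBmin : ∃ s ∈ B, ∀ b ∈ B, ¬ T.lt b s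
      · obtain ⟨s, hsB, hsmin⟩ := hBmin
        refine ⟨s, hsB.1, conv_of_max hloc T.op hsB.1 𝒰 hUQ
          (hsB.2.mono fun y hy => (T.op_le _ _).2 hy) ?_ ?_⟩
        · intro b hb hsb
          rcases hAB b hb with h | h
          · exact h.2.mono fun y hy => (T.op_le _ _).2 hy
          · exact absurd hsb (hsmin b h)
        · refine ⟨m, hm, ?_⟩
          rcases hmmin s hsB.1 with h | h
          · exact absurd ⟨s, by rw [h]; exact hmA, hsB⟩ hint
          · exact h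
      · exfalso
        push Not at hAmax hBmin
        have hcon := isPreconnected_qc T x0
        obtain ⟨z, hzQ, hz1, hz2⟩ := hcon (⋃ a ∈ A, {z | T.lt z a}) (⋃ b ∈ B, {z | T.lt b z})
          (isOpen_biUnion fun a _ => T.isOpen_lt_left a)
          (isOpen_biUnion fun b _ => T.isOpen_lt_right b)
          (by
            intro z hz
            rcases hAB z hz with h | h
            · obtain ⟨a, ha, hza⟩ := hAmax z h
              exact Or.inl (mem_biUnion ha hza)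
            · obtain ⟨b, hb, hbz⟩ := hBmin z h
              exact Or.inr (mem_biUnion hb hbz))
          (by
            obtain ⟨a, ha, hma⟩ := hAmax m hmA
            exact ⟨m, hm, mem_biUnion ha hma⟩)
          (by
            obtain ⟨b, hb, hbM⟩ := hBmin M hMB
            exact ⟨M, hM, mem_biUnion hb hbM⟩)
        simp only [mem_iUnion, exists_prop] at hz1 hz2
        obtain ⟨a, ha, hza⟩ := hz1
        obtain ⟨b, hb, hbz⟩ := hz2
        have hbz' : T.lt b z := hbz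
        have hza' : T.lt z a := hza
        have hba : T.lt b a := trans_qc T hzQ ha.1 hb.1 hbz' hza'
        apply hint
        refine ⟨b, ⟨hb.1, ?_⟩, hb⟩
        filter_upwards [ha.2, hUQ] with y hy hyQ
        exact Or.inr (lt_of_lt_of_le T ha.1 hyQ hb.1 hba hy)

/-- A function that is small on a compact set and `1` off an open neighbourhood of it. -/
theorem exists_fun [CompletelyRegularSpace X] {K O : Set X} (hK : IsCompact K) (hO : IsOpen O)
    (hKO : K ⊆ O) : ∃ f : X → ℝ, Continuous f ∧ (∀ x, 0 ≤ f x ∧ f x ≤ 1) ∧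
      (∀ x ∈ K, f x < 1 / 8) ∧ ∀ x, x ∉ O → f x = 1 := by
  refine hK.induction_on (p := fun K' => ∃ f : X → ℝ, Continuous f ∧ (∀ x, 0 ≤ f x ∧ f x ≤ 1) ∧
      (∀ x ∈ K', f x < 1 / 8) ∧ ∀ x, x ∉ O → f x = 1) ?_ ?_ ?_ ?_
  · exact ⟨fun _ => 1, continuous_const, fun _ => ⟨zero_le_one, le_rfl⟩, by simp, fun _ _ => rfl⟩
  · rintro s t hst ⟨f, h1, h2, h3, h4⟩
    exact ⟨f, h1, h2, fun x hx => h3 x (hst hx), h4⟩
  · rintro s t ⟨f, h1, h2, h3, h4⟩ ⟨g, h1', h2', h3', h4'⟩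
    refine ⟨fun x => f x * g x, h1.mul h1', fun x => ⟨mul_nonneg (h2 x).1 (h2' x).1,
      mul_le_one₀ (h2 x).2 (h2' x).1 (h2' x).2⟩, ?_, ?_⟩
    · rintro x (hx | hx)
      · exact (mul_le_of_le_one_right (h2 x).1 (h2' x).2).trans_lt (h3 x hx)
      · exact (mul_le_of_le_one_left (h2' x).1 (h2 x).2).trans_lt (h3' x hx)
    · intro x hx
      simp only
      rw [h4 x hx, h4' x hx, mul_one]
  · intro x hx
    obtain ⟨f0, hf0, hf0x, hf01⟩ := CompletelyRegularSpace.completely_regular x Oᶜ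
      hO.isClosed_compl (fun h => h (hKO hx))
    refine ⟨{z | (f0 z : ℝ) < 1 / 8}, ?_, fun z => (f0 z : ℝ), continuous_subtype_val.comp hf0,
      fun z => ⟨(f0 z).2.1, (f0 z).2.2⟩, fun z hz => hz, ?_⟩
    · refine mem_nhdsWithin_of_mem_nhds ((isOpen_lt (continuous_subtype_val.comp hf0)
        continuous_const).mem_nhds ?_)
      show (f0 x : ℝ) < 1 / 8
      rw [hf0x]
      norm_num
    · intro z hz
      show (f0 z : ℝ) = 1
      rw [hf01 hz]
      rfl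

/-- The crossing property on the lower side of a quasi-component. -/
def Cr (T : Tour X) (x0 : X) (f : X → ℝ) (u v : ℝ) : Prop :=
  ∀ G : Set X, IsClopen G → qc x0 ⊆ G → ∃ z ∈ G, z ∉ qc x0 ∧ T.lt z x0 ∧ u < f z ∧ f z < v

theorem cross_step (hloc : LocRFC X) (T : Tour X) {x0 : X} {O : Set X} (hOc : RFC O) {f : X → ℝ}
    (hf : Continuous f) (hf1 : ∀ x, x ∉ O → f x = 1) {u v : ℝ} (hC : Cr T x0 f u v) {G : Set X}
    (hG : IsClopen G) (hQG : qc x0 ⊆ G) :
    ∃ V G' : Set X, IsOpen V ∧ V.Nonempty ∧ (∀ z ∈ V, z ∈ G ∧ u < f z ∧ f z < v) ∧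
      IsClopen G' ∧ qc x0 ⊆ G' ∧ G' ⊆ G ∧ ∀ a ∈ V, ∀ b ∈ G', f b < 1 → T.lt a b := by
  obtain ⟨z, hzG, hzQ, hz, hu, hv⟩ := hC G hG hQG
  obtain ⟨C, hCc, hQC, hzC⟩ := exists_clopen hzQ
  have hzGC : z ∉ G ∩ C := fun h => hzC h.2
  have hG' : IsClopen ((G ∩ C) ∩ {y | T.lt z y}) := T.clopen_right (hG.inter hCc) hzGC
  obtain ⟨W, hW, hzW, hlt⟩ := tube hloc T (E := ((G ∩ C) ∩ {y | T.lt z y}) ∩ {y | f y < 1}) hG'
    (fun h => hzGC h.1) (fun g hg => hg.2) inter_subset_left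
    (hG'.2.inter (isOpen_lt hf continuous_const))
    (hOc.mono (by
      rintro y ⟨_, hy⟩
      by_contra hyO
      have hy' : f y < 1 := hy
      rw [hf1 y hyO] at hy'
      exact lt_irrefl _ hy'))
  refine ⟨W ∩ G ∩ ({y | u < f y} ∩ {y | f y < v}), (G ∩ C) ∩ {y | T.lt z y},
    (hW.inter hG.2).inter ((isOpen_lt continuous_const hf).inter (isOpen_lt hf continuous_const)),
    ⟨z, ⟨hzW, hzG⟩, hu, hv⟩, fun y hy => ⟨hy.1.2, hy.2.1, hy.2.2⟩, hG', ?_,
    fun y hy => hy.1.1, ?_⟩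
  · intro q hq
    exact ⟨⟨hQG hq, hQC hq⟩, uniform T hzQ (mem_qc x0) hq hz⟩
  · intro a ha b hb hfb
    exact hlt a ha.1.1 b ⟨hb, hfb⟩

theorem not_cross (hloc : LocRFC X) (T : Tour X) {x0 : X} {O : Set X} (hOc : RFC O) {f : X → ℝ}
    (hf : Continuous f) (hf1 : ∀ x, x ∉ O → f x = 1)
    (hC1 : Cr T x0 f (1 / 4) (1 / 2 - 1 / 8)) (hC2 : Cr T x0 f (1 / 2 + 1 / 8) (3 / 4)) :
    False := by
  classical
  have hstep : ∀ G : {G : Set X // IsClopen G ∧ qc x0 ⊆ G},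
      ∃ G' : {G : Set X // IsClopen G ∧ qc x0 ⊆ G}, ∃ V V' : Set X,
        IsOpen V ∧ IsOpen V' ∧ V.Nonempty ∧ V'.Nonempty ∧
        (∀ z ∈ V, z ∈ G.1 ∧ 1 / 4 < f z ∧ f z < 1 / 2 - 1 / 8) ∧
        (∀ z ∈ V', z ∈ G.1 ∧ 1 / 2 + 1 / 8 < f z ∧ f z < 3 / 4) ∧ G'.1 ⊆ G.1 ∧
        (∀ a ∈ V, ∀ b ∈ G'.1, f b < 1 → T.lt a b) ∧
        (∀ a ∈ V', ∀ b ∈ G'.1, f b < 1 → T.lt a b) := by
    rintro ⟨G, hG, hQG⟩
    obtain ⟨V, G1, h1, h2, h3, h4, h5, h6, h7⟩ := cross_step hloc T hOc hf hf1 hC1 hG hQG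
    obtain ⟨V', G2, h1', h2', h3', h4', h5', h6', h7'⟩ := cross_step hloc T hOc hf hf1 hC2 h4 h5
    refine ⟨⟨G2, h4', h5'⟩, V, V', h1, h1', h2, h2', h3, ?_, h6'.trans h6, ?_, h7'⟩
    · intro z hz
      exact ⟨h6 (h3' z hz).1, (h3' z hz).2⟩
    · intro a ha b hb
      exact h7 a ha b (h6' hb)
  choose next V V' h1 h2 h3 h4 h5 h6 h7 h8 h9 using hstep
  let G : ℕ → {G : Set X // IsClopen G ∧ qc x0 ⊆ G} :=
    fun n => next^[n] ⟨univ, isClopen_univ, subset_univ _⟩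
  have hGsucc : ∀ n, G (n + 1) = next (G n) := by
    intro n
    show next^[n + 1] _ = _
    rw [Function.iterate_succ_apply']
  have hGmono : ∀ n m, n ≤ m → (G m).1 ⊆ (G n).1 := by
    intro n m hnm
    induction m, hnm using Nat.le_induction with
    | base => exact Subset.rfl
    | succ m _ ih =>
      rw [hGsucc]
      exact (h7 _).trans ih
  have hsub : ∀ z, f z < 1 → z ∈ O := by
    intro z hz
    by_contra hzO
    rw [hf1 z hzO] at hz
    exact lt_irrefl _ hz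
  refine no_osc T hOc (V := fun n => V (G n)) (V' := fun n => V' (G n)) (fun n => h1 _)
    (fun n => h2 _) (fun n => h3 _) (fun n => h4 _) ?_ ?_ hf ?_ ?_ ?_ ?_
  · intro n z hz
    exact hsub z (by have := (h5 _ z hz).2.2; linarith)
  · intro n z hz
    exact hsub z (by have := (h6 _ z hz).2.2; linarith)
  · intro n a ha
    exact (h5 _ a ha).2.2
  · intro n a ha
    exact (h6 _ a ha).2.1
  · intro n m hnm a ha b hb
    have h10 := h6 _ b hb
    refine h8 _ a ha b ?_ (by linarith [h10.2.2])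
    rw [← hGsucc]
    exact hGmono _ _ hnm h10.1
  · intro n m hnm a ha b hb
    have h10 := h5 _ b hb
    refine h9 _ a ha b ?_ (by linarith [h10.2.2])
    rw [← hGsucc]
    exact hGmono _ _ hnm h10.1

/-- Compact quasi-components have clopen neighbourhoods inside relatively feebly compact open
neighbourhoods. -/
theorem clopen_nhd [CompletelyRegularSpace X] (hloc : LocRFC X) (T : Tour X) {x0 : X}
    (hQc : IsCompact (qc x0)) {O : Set X} (hO : IsOpen O) (hQO : qc x0 ⊆ O) (hOc : RFC O) :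
    ∃ P, IsClopen P ∧ qc x0 ⊆ P ∧ P ⊆ O := by
  obtain ⟨f, hf, hf01, hfQ, hf1⟩ := exists_fun hQc hO hQO
  have hx0 := mem_qc x0
  have hex : ∀ T' : Tour X, ∃ (G : Set X) (u v : ℝ), IsClopen G ∧ qc x0 ⊆ G ∧ 1 / 8 < u ∧ u < v ∧
      v < 1 ∧ ∀ z ∈ G, z ∉ qc x0 → T'.lt z x0 → u < f z → ¬ f z < v := by
    intro T'
    by_contra hno
    refine not_cross hloc T' (x0 := x0) hOc hf hf1 ?_ ?_
    · by_contra hC
      unfold Cr at hC
      push Not at hC
      obtain ⟨G, hG, hQG, h⟩ := hC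
      refine hno ⟨G, 1 / 4, 1 / 2 - 1 / 8, hG, hQG, by norm_num, by norm_num, by norm_num, ?_⟩
      intro z hz hzQ hlt hu
      exact not_lt.2 (h z hz hzQ hlt hu)
    · by_contra hC
      unfold Cr at hC
      push Not at hC
      obtain ⟨G, hG, hQG, h⟩ := hC
      refine hno ⟨G, 1 / 2 + 1 / 8, 3 / 4, hG, hQG, by norm_num, by norm_num, by norm_num, ?_⟩
      intro z hz hzQ hlt hu
      exact not_lt.2 (h z hz hzQ hlt hu)
  obtain ⟨G1, u, v, hG1, hQG1, hu, huv, hv, h1⟩ := hex T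
  obtain ⟨G2, u', v', hG2, hQG2, hu', huv', hv', h2⟩ := hex T.op
  let c := (u + v) / 2
  let c' := (u' + v') / 2
  have hc1 : u < c := by show u < (u + v) / 2; linarith
  have hc2 : c < v := by show (u + v) / 2 < v; linarith
  have hc1' : u' < c' := by show u' < (u' + v') / 2; linarith
  have hc2' : c' < v' := by show (u' + v') / 2 < v'; linarith
  have hQo : IsOpen (qc x0)ᶜ := (isClosed_qc x0).isOpen_compl
  let P : Set X := {z | z ∈ G1 ∧ z ∈ G2 ∧ (z ∈ qc x0 ∨ (z ∉ qc x0 ∧ T.lt z x0 ∧ f z < c) ∨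
    (z ∉ qc x0 ∧ T.lt x0 z ∧ f z < c'))}
  refine ⟨P, ⟨?_, ?_⟩, ?_, ?_⟩
  · rw [← isOpen_compl_iff, isOpen_iff_forall_mem_open]
    intro z hz
    by_cases hz1 : z ∈ G1
    · by_cases hz2 : z ∈ G2
      · by_cases hzQ : z ∈ qc x0
        · exact absurd ⟨hz1, hz2, Or.inl hzQ⟩ hz
        · have hne : z ≠ x0 := fun h => hzQ (h ▸ hx0)
          rcases T.total z x0 hne with hlt | hlt
          · have h3 : ¬ f z < c := fun h => hz ⟨hz1, hz2, Or.inr (Or.inl ⟨hzQ, hlt, h⟩)⟩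
            have h4 : ¬ f z < v := h1 z hz1 hzQ hlt (by linarith [not_lt.1 h3])
            refine ⟨(qc x0)ᶜ ∩ {y | T.lt y x0} ∩ {y | c < f y}, ?_,
              (hQo.inter (T.isOpen_lt_left x0)).inter (isOpen_lt continuous_const hf),
              ⟨⟨hzQ, hlt⟩, by show c < f z; linarith [not_lt.1 h4]⟩⟩
            rintro y ⟨⟨hyQ, hy⟩, hfy⟩ ⟨_, _, hyP⟩
            rcases hyP with h5 | h5 | h5
            · exact hyQ h5
            · have hfy' : c < f y := hfy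
              linarith [h5.2.2]
            · exact T.asymm _ _ hy h5.2.1
          · have h3 : ¬ f z < c' := fun h => hz ⟨hz1, hz2, Or.inr (Or.inr ⟨hzQ, hlt, h⟩)⟩
            have h4 : ¬ f z < v' := h2 z hz2 hzQ hlt (by linarith [not_lt.1 h3])
            refine ⟨(qc x0)ᶜ ∩ {y | T.lt x0 y} ∩ {y | c' < f y}, ?_,
              (hQo.inter (T.isOpen_lt_right x0)).inter (isOpen_lt continuous_const hf),
              ⟨⟨hzQ, hlt⟩, by show c' < f z; linarith [not_lt.1 h4]⟩⟩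
            rintro y ⟨⟨hyQ, hy⟩, hfy⟩ ⟨_, _, hyP⟩
            rcases hyP with h5 | h5 | h5
            · exact hyQ h5
            · exact T.asymm _ _ hy h5.2.1
            · have hfy' : c' < f y := hfy
              linarith [h5.2.2]
      · exact ⟨G2ᶜ, fun y hy hyP => hy hyP.2.1, hG2.compl.2, hz2⟩
    · exact ⟨G1ᶜ, fun y hy hyP => hy hyP.1, hG1.compl.2, hz1⟩
  · rw [isOpen_iff_forall_mem_open]
    rintro z ⟨hz1, hz2, hz⟩
    rcases hz with hz | hz | hz
    · refine ⟨G1 ∩ G2 ∩ {y | f y < 1 / 8}, ?_, (hG1.2.inter hG2.2).inter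
        (isOpen_lt hf continuous_const), ⟨⟨hz1, hz2⟩, hfQ z hz⟩⟩
      rintro y ⟨⟨hy1, hy2⟩, hfy⟩
      have hfy' : f y < 1 / 8 := hfy
      refine ⟨hy1, hy2, ?_⟩
      by_cases hyQ : y ∈ qc x0
      · exact Or.inl hyQ
      · right
        have hne : y ≠ x0 := fun h => hyQ (h ▸ hx0)
        rcases T.total y x0 hne with hlt | hlt
        · exact Or.inl ⟨hyQ, hlt, by linarith⟩
        · exact Or.inr ⟨hyQ, hlt, by linarith⟩
    · refine ⟨G1 ∩ G2 ∩ ((qc x0)ᶜ ∩ {y | T.lt y x0} ∩ {y | f y < c}), ?_,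
        (hG1.2.inter hG2.2).inter ((hQo.inter (T.isOpen_lt_left x0)).inter
        (isOpen_lt hf continuous_const)), ⟨⟨hz1, hz2⟩, ⟨hz.1, hz.2.1⟩, hz.2.2⟩⟩
      rintro y ⟨⟨hy1, hy2⟩, ⟨hy3, hy4⟩, hy5⟩
      exact ⟨hy1, hy2, Or.inr (Or.inl ⟨hy3, hy4, hy5⟩)⟩
    · refine ⟨G1 ∩ G2 ∩ ((qc x0)ᶜ ∩ {y | T.lt x0 y} ∩ {y | f y < c'}), ?_,
        (hG1.2.inter hG2.2).inter ((hQo.inter (T.isOpen_lt_right x0)).inter
        (isOpen_lt hf continuous_const)), ⟨⟨hz1, hz2⟩, ⟨hz.1, hz.2.1⟩, hz.2.2⟩⟩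
      rintro y ⟨⟨hy1, hy2⟩, ⟨hy3, hy4⟩, hy5⟩
      exact ⟨hy1, hy2, Or.inr (Or.inr ⟨hy3, hy4, hy5⟩)⟩
  · intro z hz
    exact ⟨hQG1 hz, hQG2 hz, Or.inl hz⟩
  · rintro z ⟨_, _, hz⟩
    rcases hz with hz | hz | hz
    · exact hQO hz
    · by_contra hzO
      have := hf1 z hzO
      linarith [hz.2.2]
    · by_contra hzO
      have := hf1 z hzO
      linarith [hz.2.2]

end Pool.Agent.R584.King
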