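import Mathlib
import Pool.Agent.R584.King4

/-!
# Locally feebly compact king spaces are compact
-/

open Set Filter Topology

namespace Pool.Agent.R584.King

universe u

variable {X : Type u} [TopologicalSpace X]

open Tour

/-- Case `A ∈ 𝒰` of the main argument. -/
theorem main_aux (hk : KingSp X) (hloc : LocRFC X) (T : Tour X)
    (𝒰 : Ultrafilter X)
    (hP : ∀ x : X, ∃ P : Set X, IsClopen P ∧ x ∈ P ∧ P ∉ (𝒰 : Filter X) ∧ RFC P)
    {A : Set X} (hA : IsClopen A) (hA2 : ∀ x ∈ A, ∀ᶠ y in (𝒰 : Filter X), T.lt x y)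
    (hAU : A ∈ (𝒰 : Filter X)) : False := by
  classical
  obtain ⟨z, hzA, hz⟩ := clopen_king hk T hA (𝒰.nonempty_of_mem hAU)
  obtain ⟨P, hPc, hzP, hPU, _⟩ := hP z
  let V : Set X := (A ∩ Pᶜ) ∩ {x | T.lt z x}
  have hVc : IsClopen V := T.clopen_right (hA.inter hPc.compl) (fun h => h.2 hzP)
  have hVU : V ∈ (𝒰 : Filter X) :=
    inter_mem (inter_mem hAU (Ultrafilter.compl_mem_iff_notMem.2 hPU)) (hA2 z hzA)
  have hVA : V ⊆ A := fun x hx => hx.1.1
  have hY : ∀ x ∈ V, ∃ y ∈ A, y ∉ V ∧ T.lt x y := by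
    intro x hx
    obtain ⟨y, hyA, hyz, hxy⟩ := hz x (hVA hx)
    have hyV : y ∉ V := by
      intro hyV
      rcases hyz with rfl | h
      · exact hyV.1.2 hzP
      · exact T.asymm _ _ h hyV.2
    refine ⟨y, hyA, hyV, ?_⟩
    rcases hxy with rfl | h
    · exact absurd hx hyV
    · exact h
  -- the recursion
  let St : Type u := {E : Set X // IsClopen E ∧ E ∈ (𝒰 : Filter X) ∧ E ⊆ V}
  have hstep : ∀ E : St, ∃ (x y : X), x ∈ E.1 ∧ y ∈ A ∧ y ∉ V ∧ T.lt x y := by
    intro E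
    obtain ⟨x, hx⟩ := 𝒰.nonempty_of_mem E.2.2.1
    obtain ⟨y, hyA, hyV, hxy⟩ := hY x (E.2.2.2 hx)
    exact ⟨x, y, hx, hyA, hyV, hxy⟩
  choose px py h1 h2 h3 h4 using hstep
  let next : St → St := fun E => ⟨E.1 ∩ {x | T.lt (py E) x},
    T.clopen_right E.2.1 (fun h => h3 E (E.2.2.2 h)), inter_mem E.2.2.1 (hA2 _ (h2 E)),
    fun x hx => E.2.2.2 hx.1⟩
  let E : ℕ → St := fun n => next^[n] ⟨V, hVc, hVU, Subset.rfl⟩
  have hEsucc : ∀ n, (E (n + 1)).1 = (E n).1 ∩ {x | T.lt (py (E n)) x} := by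
    intro n
    show (next^[n + 1] _).1 = _
    rw [Function.iterate_succ_apply']
  have hEmono : ∀ n m, n ≤ m → (E m).1 ⊆ (E n).1 := by
    intro n m hnm
    induction m, hnm using Nat.le_induction with
    | base => exact Subset.rfl
    | succ m _ ih =>
      rw [hEsucc]
      exact inter_subset_left.trans ih
  let XX : ℕ → Set X := fun n => (E n).1 ∩ {x | T.lt x (py (E n))}
  have hXc : ∀ n, IsClopen (XX n) := fun n =>
    T.clopen_left (E n).2.1 (fun h => h3 (E n) ((E n).2.2.2 h))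
  have hXne : ∀ n, (XX n).Nonempty := fun n => ⟨px (E n), h1 _, h4 _⟩
  have hXV : ∀ n, XX n ⊆ V := fun n x hx => (E n).2.2.2 hx.1
  have hXlt : ∀ m n, m < n → ∀ x ∈ XX n, T.lt (py (E m)) x := by
    intro m n hmn x hx
    have h5 := hEmono (m + 1) n hmn hx.1
    rw [hEsucc] at h5
    exact h5.2
  -- an accumulation point of the family
  have hacc : ∃ w, ∀ W, IsOpen W → w ∈ W → {n | (XX n ∩ W).Nonempty}.Infinite := by
    by_contra hno
    push Not at hno
    have hτ : IsLocallyConstant (fun x : X => {n | x ∈ XX n}) := by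
      rw [IsLocallyConstant.iff_exists_open]
      intro x
      obtain ⟨W, hW, hxW, hfin⟩ := hno x
      refine ⟨W ∩ ⋂ n ∈ {n | (XX n ∩ W).Nonempty}, (if x ∈ XX n then XX n else (XX n)ᶜ),
        hW.inter (hfin.isOpen_biInter fun n _ => ?_), ⟨hxW, ?_⟩, ?_⟩
      · by_cases h : x ∈ XX n
        · rw [if_pos h]; exact (hXc n).2
        · rw [if_neg h]; exact (hXc n).compl.2
      · simp only [mem_iInter]
        intro n _
        by_cases h : x ∈ XX n
        · rw [if_pos h]; exact h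
        · rw [if_neg h]; exact h
      · rintro x' ⟨hx'W, hx'⟩
        simp only [mem_iInter] at hx'
        ext n
        constructor
        · intro hn
          have h5 := hx' n ⟨x', hn, hx'W⟩
          by_contra h
          have h6 : x ∉ XX n := h
          rw [if_neg h6] at h5
          exact h5 hn
        · intro hn
          have h5 := hx' n ⟨x, hn, hxW⟩
          have h6 : x ∈ XX n := hn
          rw [if_pos h6] at h5
          exact h5
    have hfin := finite_range_of_king hk T _ hτ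
    have h5 : (⋃₀ range (fun x : X => {n | x ∈ XX n})).Finite := by
      refine Set.Finite.sUnion hfin ?_
      rintro _ ⟨x, rfl⟩
      obtain ⟨W, hW, hxW, hfin'⟩ := hno x
      exact hfin'.subset fun n hn => ⟨x, hn, hxW⟩
    have h6 : ⋃₀ range (fun x : X => {n | x ∈ XX n}) = univ := by
      ext n
      simp only [mem_univ, iff_true]
      obtain ⟨x, hx⟩ := hXne n
      exact ⟨_, ⟨x, rfl⟩, hx⟩
    rw [h6] at h5
    exact infinite_univ h5
  obtain ⟨w, hw⟩ := hacc
  obtain ⟨P', hP'c, hwP', _, hP'R⟩ := hP w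
  have hU'c : IsClopen (P' ∩ V) := hP'c.inter hVc
  have hfin := finite_range_of_king hk T _
    (trace_locConst hloc T hU'c (hP'R.mono inter_subset_left))
  have hinf := hw P' hP'c.2 hwP'
  have hmaps : MapsTo (fun n => {x | x ∈ P' ∩ V ∧ py (E n) ∉ P' ∩ V ∧ T.lt x (py (E n))})
      {n | (XX n ∩ P').Nonempty}
      (range fun w : X => {x | x ∈ P' ∩ V ∧ w ∉ P' ∩ V ∧ T.lt x w}) :=
    fun n _ => ⟨py (E n), rfl⟩
  obtain ⟨m, hm, n, hn, hmn, heq⟩ := hinf.exists_ne_map_eq_of_mapsTo hmaps hfin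
  have key : ∀ m n : ℕ, (XX n ∩ P').Nonempty → m < n →
      {x | x ∈ P' ∩ V ∧ py (E m) ∉ P' ∩ V ∧ T.lt x (py (E m))} =
      {x | x ∈ P' ∩ V ∧ py (E n) ∉ P' ∩ V ∧ T.lt x (py (E n))} → False := by
    rintro m n ⟨x, hx, hxP⟩ hmn heq
    have h5 : x ∈ {x | x ∈ P' ∩ V ∧ py (E n) ∉ P' ∩ V ∧ T.lt x (py (E n))} :=
      ⟨⟨hxP, hXV n hx⟩, fun h => h3 _ h.2, hx.2⟩
    rw [← heq] at h5
    exact T.asymm _ _ h5.2.2 (hXlt m n hmn x hx)
  rcases lt_or_gt_of_ne hmn with h | h
  · exact key m n hn h heq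
  · exact key n m hm h heq.symm

/-- A completely regular, locally feebly compact king space with a tournament is compact. -/
theorem compact_of_king [CompletelyRegularSpace X] (hk : KingSp X) (hloc : LocRFC X)
    (T : Tour X) : CompactSpace X := by
  rw [← isCompact_univ_iff, isCompact_iff_ultrafilter_le_nhds]
  intro 𝒰 _
  by_contra hno
  push Not at hno
  have hno' : ∀ x : X, ∃ W, IsOpen W ∧ x ∈ W ∧ W ∉ (𝒰 : Filter X) := by
    intro x
    have h1 := hno x (mem_univ x)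
    rw [le_nhds_iff] at h1
    push Not at h1
    obtain ⟨W, hxW, hW, hWU⟩ := h1
    exact ⟨W, hW, hxW, hWU⟩
  have hP : ∀ x : X, ∃ P : Set X, IsClopen P ∧ x ∈ P ∧ P ∉ (𝒰 : Filter X) ∧ RFC P := by
    intro x
    have hQc := isCompact_qc hk hloc T x
    have h1 : ∃ O, IsOpen O ∧ qc x ⊆ O ∧ O ∉ (𝒰 : Filter X) ∧ RFC O := by
      refine hQc.induction_on (p := fun K => ∃ O, IsOpen O ∧ K ⊆ O ∧ O ∉ (𝒰 : Filter X) ∧ RFC O)
        ?_ ?_ ?_ ?_
      · exact ⟨∅, isOpen_empty, Subset.rfl, fun h => (𝒰.neBot.ne (empty_mem_iff_bot.1 h)),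
          RFC.empty⟩
      · rintro s t hst ⟨O, h1, h2, h3⟩
        exact ⟨O, h1, hst.trans h2, h3⟩
      · rintro s t ⟨O, h1, h2, h3, h4⟩ ⟨O', h1', h2', h3', h4'⟩
        refine ⟨O ∪ O', h1.union h1', union_subset_union h2 h2', ?_, h4.union h4' h1 h1'⟩
        intro h
        rcases Ultrafilter.union_mem_iff.1 h with h | h
        · exact h3 h
        · exact h3' h
      · intro y _
        obtain ⟨W, hW, hyW, hWU⟩ := hno' y
        obtain ⟨U, hU, hyU, hUc⟩ := hloc y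
        refine ⟨W ∩ U, mem_nhdsWithin_of_mem_nhds ((hW.inter hU).mem_nhds ⟨hyW, hyU⟩), W ∩ U,
          hW.inter hU, Subset.rfl, fun h => hWU (mem_of_superset h inter_subset_left),
          hUc.mono inter_subset_right⟩
    obtain ⟨O, hO, hQO, hOU, hOc⟩ := h1
    obtain ⟨P, hPc, hQP, hPO⟩ := clopen_nhd hloc T hQc hO hQO hOc
    exact ⟨P, hPc, hQP (mem_qc x), fun h => hOU (mem_of_superset h hPO), hOc.mono hPO⟩
  -- the set of points below the ultrafilter is clopen
  let A : Set X := {x | ∀ᶠ y in (𝒰 : Filter X), T.lt x y}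
  have hloc' : ∀ x0 : X, ∃ P S : Set X, IsClopen P ∧ IsClopen S ∧ x0 ∈ P ∧
      ∀ x ∈ P, x ∈ A ↔ x ∈ S := by
    intro x0
    obtain ⟨P, hPc, hxP, hPU, hPR⟩ := hP x0
    have hPU' : Pᶜ ∈ (𝒰 : Filter X) := Ultrafilter.compl_mem_iff_notMem.2 hPU
    have hlc := trace_locConst hloc T hPc hPR
    have hfin := finite_range_of_king hk T _ hlc
    set τ : X → Set X := fun w => {x | x ∈ P ∧ w ∉ P ∧ T.lt x w} with hτ
    have h1 : ∃ S ∈ range τ, τ ⁻¹' {S} ∈ (𝒰 : Filter X) := by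
      have h2 : (⋃ S ∈ range τ, τ ⁻¹' {S}) ∈ (𝒰 : Filter X) := by
        have : (⋃ S ∈ range τ, τ ⁻¹' {S}) = univ := by
          ext w
          simp
        rw [this]
        exact univ_mem
      exact (Ultrafilter.finite_biUnion_mem_iff hfin).1 h2
    obtain ⟨S, _, hSU⟩ := h1
    obtain ⟨w0, hw0, hw0P⟩ := 𝒰.nonempty_of_mem (inter_mem hSU hPU')
    have hw0' : τ w0 = S := hw0
    have hSc : IsClopen S := by
      have h2 := T.clopen_left hPc hw0P
      have h3 : P ∩ {z | T.lt z w0} = S := by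
        rw [← hw0']
        ext x
        constructor
        · rintro ⟨h4, h5⟩
          exact ⟨h4, hw0P, h5⟩
        · rintro ⟨h4, _, h5⟩
          exact ⟨h4, h5⟩
      rwa [h3] at h2
    refine ⟨P, S, hPc, hSc, hxP, fun x hx => ?_⟩
    constructor
    · intro hxA
      obtain ⟨w, ⟨hwS, hwP⟩, hlt⟩ := 𝒰.nonempty_of_mem (inter_mem (inter_mem hSU hPU') hxA)
      have hw' : τ w = S := hwS
      rw [← hw']
      exact ⟨hx, hwP, hlt⟩
    · intro hxS
      filter_upwards [hSU] with w hw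
      have hw' : τ w = S := hw
      rw [← hw'] at hxS
      exact hxS.2.2
  have hAo : IsOpen A := by
    rw [isOpen_iff_forall_mem_open]
    intro x0 hx0
    obtain ⟨P, S, hPc, hSc, hxP, h⟩ := hloc' x0
    exact ⟨P ∩ S, fun y hy => (h y hy.1).2 hy.2, hPc.2.inter hSc.2, hxP, (h x0 hxP).1 hx0⟩
  have hAco : IsOpen Aᶜ := by
    rw [isOpen_iff_forall_mem_open]
    intro x0 hx0
    obtain ⟨P, S, hPc, hSc, hxP, h⟩ := hloc' x0
    exact ⟨P ∩ Sᶜ, fun y hy hyA => hy.2 ((h y hy.1).1 hyA), hPc.2.inter hSc.compl.2, hxP,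
      fun hxS => hx0 ((h x0 hxP).2 hxS)⟩
  have hAc : IsClopen A := ⟨by rw [← isOpen_compl_iff]; exact hAco, hAo⟩
  by_cases hAU : A ∈ (𝒰 : Filter X)
  · exact main_aux hk hloc T 𝒰 hP hAc (fun x hx => hx) hAU
  · refine main_aux hk hloc T.op 𝒰 hP hAc.compl (fun x hx => ?_)
      (Ultrafilter.compl_mem_iff_notMem.2 hAU)
    have h1 : ∀ᶠ y in (𝒰 : Filter X), ¬ T.lt x y := by
      rcases Ultrafilter.em 𝒰 (fun y => T.lt x y) with h | h
      · exact absurd h hx
      · exact h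
    obtain ⟨P, _, hxP, hPU, _⟩ := hP x
    filter_upwards [h1, Ultrafilter.compl_mem_iff_notMem.2 hPU] with y hy hyP
    rw [T.not_lt_iff] at hy
    rcases hy with rfl | hy
    · exact absurd hxP hyP
    · exact hy

end Pool.Agent.R584.King
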