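import Mathlib

/-!
# A `T₁` strict quasi-Lindelöf space whose `pwL_c` is uncountable

Combinatorial and topological construction used for problem MP_a1e9e0_gt.
-/

open Set Topology

namespace Pool.Agent.R584.QL

/-- Points of the first kind: a leaf carries a subset of `List ℝ × ℕ`; a node carries a sequence of
points of the first kind and a real number. -/
inductive P : Type
  | leaf (s : Set (List ℝ × ℕ)) : P
  | node (f : ℕ → P) (j : ℝ) : P

open P

/-- The address of a point of the first kind. -/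
def adr : P → List ℝ
  | leaf _ => []
  | node f j => j :: adr (f 0)

/-- A sequence is good if it is injective and has constant address. -/
def Good (f : ℕ → P) : Prop := Function.Injective f ∧ ∀ n, adr (f n) = adr (f 0)

/-- Small sets: countable with only finitely many addresses. -/
def Small (C : Set P) : Prop := C.Countable ∧ (adr '' C).Finite

theorem Small.mono {C D : Set P} (h : Small D) (hCD : C ⊆ D) : Small C :=
  ⟨h.1.mono hCD, h.2.subset (image_mono hCD)⟩

theorem Small.union {C D : Set P} (h : Small C) (h' : Small D) : Small (C ∪ D) :=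
  ⟨h.1.union h'.1, by rw [image_union]; exact h.2.union h'.2⟩

theorem small_of_finite {C : Set P} (h : C.Finite) : Small C := ⟨h.countable, h.image _⟩

theorem small_empty : Small ∅ := small_of_finite finite_empty

/-- The space: points of the first kind, all pairs of points of the first kind, and one more
point. -/
def X : Type := P ⊕ Option (P × P)

/-- Inclusion of the points of the first kind. -/
def pt (x : P) : X := Sum.inl x

/-- Inclusion of the pairs. -/
def pr (a b : P) : X := Sum.inr (some (a, b))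

/-- The extra point. -/
def inf : X := Sum.inr none

theorem pt_inj {x y : P} : pt x = pt y ↔ x = y := Sum.inl_injective.eq_iff

theorem pr_inj {a b c d : P} : pr a b = pr c d ↔ a = c ∧ b = d := by
  unfold pr
  constructor
  · intro h
    have h1 := Option.some_injective _ (Sum.inr_injective h)
    exact ⟨congrArg Prod.fst h1, congrArg Prod.snd h1⟩
  · rintro ⟨rfl, rfl⟩; rfl

theorem pt_ne_pr {x a b : P} : pt x ≠ pr a b := by unfold pt pr; exact Sum.inl_ne_inr
theorem pt_ne_inf {x : P} : pt x ≠ inf := by unfold pt inf; exact Sum.inl_ne_inr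
theorem pr_ne_inf {a b : P} : pr a b ≠ inf := by
  unfold pr inf
  intro h
  have := Sum.inr_injective h
  cases this

theorem X_cases (x : X) : (∃ y, x = pt y) ∨ (∃ a b, x = pr a b) ∨ x = inf := by
  rcases x with y | (_ | ⟨a, b⟩)
  · exact Or.inl ⟨y, rfl⟩
  · exact Or.inr (Or.inr rfl)
  · exact Or.inr (Or.inl ⟨a, b, rfl⟩)

/-- The open sets. -/
def Opn (O : Set X) : Prop :=
  (∀ f j, Good f → pt (node f j) ∈ O → {n | pt (f n) ∉ O}.Finite) ∧
  (∀ x, pt x ∈ O → Small {y | pr x y ∉ O ∨ pr y x ∉ O}) ∧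
  (inf ∈ O → {p : P × P | pr p.1 p.2 ∉ O}.Finite)

instance : TopologicalSpace X where
  IsOpen := Opn
  isOpen_univ := by
    refine ⟨fun f j _ _ => ?_, fun x _ => ?_, fun _ => ?_⟩
    · simp
    · simpa using small_empty
    · simp
  isOpen_inter := by
    rintro O O' ⟨h1, h2, h3⟩ ⟨h1', h2', h3'⟩
    refine ⟨fun f j hf hm => ?_, fun x hx => ?_, fun hi => ?_⟩
    · refine ((h1 f j hf hm.1).union (h1' f j hf hm.2)).subset ?_
      intro n hn
      by_contra hc
      simp only [mem_union, mem_ofPred_eq, not_or, not_not] at hc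
      exact hn ⟨hc.1, hc.2⟩
    · refine ((h2 x hx.1).union (h2' x hx.2)).mono ?_
      intro n hn
      by_contra hc
      simp only [mem_union, mem_ofPred_eq, not_or, not_not] at hc
      rcases hn with hn | hn
      · exact hn ⟨hc.1.1, hc.2.1⟩
      · exact hn ⟨hc.1.2, hc.2.2⟩
    · refine ((h3 hi.1).union (h3' hi.2)).subset ?_
      intro n hn
      by_contra hc
      simp only [mem_union, mem_ofPred_eq, not_or, not_not] at hc
      exact hn ⟨hc.1, hc.2⟩
  isOpen_sUnion := by
    intro S hS
    refine ⟨fun f j hf hm => ?_, fun x hx => ?_, fun hi => ?_⟩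
    · obtain ⟨O, hO, hm⟩ := hm
      refine ((hS O hO).1 f j hf hm).subset ?_
      intro n hn hc
      exact hn ⟨O, hO, hc⟩
    · obtain ⟨O, hO, hm⟩ := hx
      refine ((hS O hO).2.1 x hm).mono ?_
      rintro n (hn | hn)
      · exact Or.inl fun hc => hn ⟨O, hO, hc⟩
      · exact Or.inr fun hc => hn ⟨O, hO, hc⟩
    · obtain ⟨O, hO, hm⟩ := hi
      refine ((hS O hO).2.2 hm).subset ?_
      intro n hn hc
      exact hn ⟨O, hO, hc⟩

theorem isOpen_def {O : Set X} : IsOpen O ↔ Opn O := Iff.rfl

instance : T1Space X where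
  t1 := by
    intro z
    rw [← isOpen_compl_iff, isOpen_def]
    refine ⟨fun f j hf _ => ?_, fun x _ => ?_, fun _ => ?_⟩
    · apply Set.Subsingleton.finite
      intro n hn m hm
      simp only [mem_ofPred_eq, mem_compl_iff, mem_singleton_iff, not_not] at hn hm
      exact hf.1 (pt_inj.1 (hn.trans hm.symm))
    · have h1 : {y | pr x y ∉ ({z}ᶜ : Set X)}.Finite := by
        apply Set.Subsingleton.finite
        intro n hn m hm
        simp only [mem_ofPred_eq, mem_compl_iff, mem_singleton_iff, not_not] at hn hm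
        exact (pr_inj.1 (hn.trans hm.symm)).2
      have h2 : {y | pr y x ∉ ({z}ᶜ : Set X)}.Finite := by
        apply Set.Subsingleton.finite
        intro n hn m hm
        simp only [mem_ofPred_eq, mem_compl_iff, mem_singleton_iff, not_not] at hn hm
        exact (pr_inj.1 (hn.trans hm.symm)).1
      exact small_of_finite ((h1.union h2).subset fun y hy => hy)
    · apply Set.Subsingleton.finite
      intro n hn m hm
      simp only [mem_ofPred_eq, mem_compl_iff, mem_singleton_iff, not_not] at hn hm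
      have := pr_inj.1 (hn.trans hm.symm)
      exact Prod.ext this.1 this.2

/-! ### Strict quasi-Lindelöf -/

/-- If one class covers all but countably many points, then the rest can be covered. -/
theorem cover_of_countable {Y : Type*} [TopologicalSpace Y] {F : Set Y} {𝒰 : ℕ → Set (Set Y)}
    (hcov : F ⊆ ⋃ n, ⋃₀ 𝒰 n) {m : ℕ} {𝒲 : Set (Set Y)} (hW : 𝒲 ⊆ 𝒰 m) (hWc : 𝒲.Countable)
    (hrest : (F \ closure (⋃₀ 𝒲)).Countable) :
    ∃ 𝒱 : ℕ → Set (Set Y), (∀ n, 𝒱 n ⊆ 𝒰 n ∧ (𝒱 n).Countable) ∧
      F ⊆ ⋃ n, closure (⋃₀ 𝒱 n) := by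
  classical
  have hch : ∀ x : Y, ∃ (n : ℕ) (U : Set Y), x ∈ F → U ∈ 𝒰 n ∧ x ∈ U := by
    intro x
    by_cases hx : x ∈ F
    · obtain ⟨n, hn⟩ := mem_iUnion.1 (hcov hx)
      obtain ⟨U, hU, hxU⟩ := hn
      exact ⟨n, U, fun _ => ⟨hU, hxU⟩⟩
    · exact ⟨0, ∅, fun h => absurd h hx⟩
  choose N U hNU using hch
  refine ⟨fun n => (U '' {x | x ∈ F \ closure (⋃₀ 𝒲) ∧ N x = n}) ∪ {V | n = m ∧ V ∈ 𝒲}, ?_, ?_⟩
  · intro n
    constructor
    · rintro V (⟨x, ⟨hx, rfl⟩, rfl⟩ | ⟨rfl, hV⟩)
      · exact (hNU x hx.1).1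
      · exact hW hV
    · refine Set.Countable.union ?_ ?_
      · exact (hrest.mono (fun x hx => hx.1)).image _
      · exact hWc.mono fun V hV => hV.2
  · intro x hx
    by_cases hxc : x ∈ closure (⋃₀ 𝒲)
    · refine mem_iUnion.2 ⟨m, closure_mono ?_ hxc⟩
      exact sUnion_subset_sUnion fun V hV => Or.inr ⟨rfl, hV⟩
    · refine mem_iUnion.2 ⟨N x, subset_closure ?_⟩
      exact ⟨U x, Or.inl ⟨x, ⟨⟨hx, hxc⟩, rfl⟩, rfl⟩, (hNU x hx).2⟩

theorem uncountable_P : ¬ (univ : Set P).Countable := by
  intro h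
  have h1 : (range P.leaf).Countable := h.mono (subset_univ _)
  have h2 : Function.Injective P.leaf := fun a b hab => by injection hab
  have h3 : Countable (Set (List ℝ × ℕ)) := by
    have := h1.to_subtype
    exact Function.Injective.countable (f := fun s => (⟨P.leaf s, s, rfl⟩ : range P.leaf))
      (fun a b hab => h2 (congrArg Subtype.val hab))
  have h4 : Countable (List ℝ × ℕ) :=
    Function.Injective.countable (f := fun x : List ℝ × ℕ => ({x} : Set (List ℝ × ℕ)))
      singleton_injective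
  have h5 : Countable ℝ :=
    Function.Injective.countable (f := fun x : ℝ => (([x], 0) : List ℝ × ℕ))
      (fun a b hab => by simpa using hab)
  exact not_countable_iff.2 (inferInstance : Uncountable ℝ) h5

/-- All points of the first kind are in the closure of a neighbourhood of the extra point. -/
theorem pt_mem_closure_of_inf {W : Set X} (hW : IsOpen W) (hi : inf ∈ W) (y : P) :
    pt y ∈ closure W := by
  rw [mem_closure_iff]
  intro O hO hy
  have h1 : Small {z | pr y z ∉ O ∨ pr z y ∉ O} := (isOpen_def.1 hO).2.1 y hy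
  have h2 : {p : P × P | pr p.1 p.2 ∉ W}.Finite := (isOpen_def.1 hW).2.2 hi
  have h3 : {z | pr y z ∉ W}.Finite :=
    Set.Finite.preimage (f := fun z : P => ((y, z) : P × P))
      (fun a _ b _ hab => by simpa using hab) h2
  by_contra hne
  apply uncountable_P
  refine (h1.1.union h3.countable).mono ?_
  intro z _
  by_contra hz
  simp only [mem_union, mem_ofPred_eq, not_or, not_not] at hz
  exact hne ⟨pr y z, hz.1.1, hz.2⟩

theorem node_mem {F : Set X} (hF : IsClosed F) {f : ℕ → P} (hf : Good f)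
    (h : ∀ n, pt (f n) ∈ F) (j : ℝ) : pt (node f j) ∈ F := by
  by_contra hc
  have h1 := (isOpen_def.1 hF.isOpen_compl).1 f j hf hc
  have h2 : {n | pt (f n) ∉ Fᶜ} = univ := by
    ext n; simp [h n]
  rw [h2] at h1
  exact infinite_univ h1

/-- An uncountable closed set has uncountably many addresses. -/
theorem uncountable_adr {F : Set X} (hF : IsClosed F) (hunc : ¬ {x | pt x ∈ F}.Countable) :
    ¬ (adr '' {x | pt x ∈ F}).Countable := by
  intro hcount
  have h1 : ∃ c ∈ adr '' {x | pt x ∈ F}, ¬ {x | pt x ∈ F ∧ adr x = c}.Countable := by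
    by_contra hno
    push Not at hno
    apply hunc
    have h2 : {x | pt x ∈ F} = ⋃ c ∈ adr '' {x | pt x ∈ F}, {x | pt x ∈ F ∧ adr x = c} := by
      ext x
      simp only [mem_ofPred_eq, mem_iUnion, exists_prop]
      constructor
      · intro hx
        exact ⟨adr x, ⟨x, hx, rfl⟩, hx, rfl⟩
      · rintro ⟨c, -, hx, -⟩
        exact hx
    rw [h2]
    exact hcount.biUnion hno
  obtain ⟨c, -, hc⟩ := h1
  have hinf : {x | pt x ∈ F ∧ adr x = c}.Infinite := fun h => hc h.countable
  let f : ℕ → P := fun n => (hinf.natEmbedding _ n : P)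
  have hfm : ∀ n, pt (f n) ∈ F ∧ adr (f n) = c := fun n => (hinf.natEmbedding _ n).2
  have hf : Good f := by
    refine ⟨fun a b hab => (hinf.natEmbedding _).injective (Subtype.ext hab), fun n => ?_⟩
    rw [(hfm n).2, (hfm 0).2]
  have h3 : range (fun j : ℝ => j :: c) ⊆ adr '' {x | pt x ∈ F} := by
    rintro _ ⟨j, rfl⟩
    refine ⟨node f j, node_mem hF hf (fun n => (hfm n).1) j, ?_⟩
    show j :: adr (f 0) = j :: c
    rw [(hfm 0).2]
  have h4 : (range (fun j : ℝ => j :: c)).Countable := hcount.mono h3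
  have h5 : Countable ℝ := by
    have := h4.to_subtype
    exact Function.Injective.countable
      (f := fun j : ℝ => (⟨j :: c, j, rfl⟩ : range (fun j : ℝ => j :: c)))
      (fun a b hab => by
        have := congrArg Subtype.val hab
        simpa using this)
  exact not_countable_iff.2 (inferInstance : Uncountable ℝ) h5

theorem strict_key {F : Set X} (hF : IsClosed F) {𝒰 : ℕ → Set (Set X)}
    (hopen : ∀ n, ∀ U ∈ 𝒰 n, IsOpen U) (hcov : F ⊆ ⋃ n, ⋃₀ 𝒰 n) :
    ∃ (m : ℕ) (𝒲 : Set (Set X)), 𝒲 ⊆ 𝒰 m ∧ 𝒲.Countable ∧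
      (F \ closure (⋃₀ 𝒲)).Countable := by
  classical
  by_cases hD : {p : P × P | pr p.1 p.2 ∈ F}.Finite
  · by_cases hP : {x | pt x ∈ F}.Countable
    · refine ⟨0, ∅, empty_subset _, countable_empty, ?_⟩
      have h1 : F ⊆ (pt '' {x | pt x ∈ F}) ∪
          ((fun p : P × P => pr p.1 p.2) '' {p : P × P | pr p.1 p.2 ∈ F}) ∪ {inf} := by
        intro z hz
        rcases X_cases z with ⟨y, rfl⟩ | ⟨a, b, rfl⟩ | rfl
        · exact Or.inl (Or.inl ⟨y, hz, rfl⟩)
        · exact Or.inl (Or.inr ⟨(a, b), hz, rfl⟩)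
        · exact Or.inr rfl
      refine Set.Countable.mono (sdiff_subset.trans h1) ?_
      exact ((hP.image _).union (hD.countable.image _)).union (countable_singleton _)
    · -- choose a class for every point
      have hadr := uncountable_adr hF hP
      have hch : ∀ x : P, ∃ (n : ℕ) (U : Set X), pt x ∈ F → U ∈ 𝒰 n ∧ pt x ∈ U := by
        intro x
        by_cases hx : pt x ∈ F
        · obtain ⟨n, hn⟩ := mem_iUnion.1 (hcov hx)
          obtain ⟨U, hU, hxU⟩ := hn
          exact ⟨n, U, fun _ => ⟨hU, hxU⟩⟩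
        · exact ⟨0, ∅, fun h => absurd h hx⟩
      choose N U hNU using hch
      have hm : ∃ m, (adr '' {x | pt x ∈ F ∧ N x = m}).Infinite := by
        by_contra hno
        push Not at hno
        apply hadr
        have h2 : adr '' {x | pt x ∈ F} = ⋃ m, adr '' {x | pt x ∈ F ∧ N x = m} := by
          ext l
          simp only [mem_image, mem_ofPred_eq, mem_iUnion]
          constructor
          · rintro ⟨x, hx, rfl⟩
            exact ⟨N x, x, ⟨hx, rfl⟩, rfl⟩
          · rintro ⟨m, x, ⟨hx, -⟩, rfl⟩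
            exact ⟨x, hx, rfl⟩
        rw [h2]
        exact countable_iUnion fun m => (hno m).countable
      obtain ⟨m, hm⟩ := hm
      have hx : ∀ k : ℕ, ∃ x, (pt x ∈ F ∧ N x = m) ∧ adr x = hm.natEmbedding _ k := by
        intro k
        obtain ⟨x, hx, hxe⟩ := (hm.natEmbedding _ k).2
        exact ⟨x, hx, hxe⟩
      choose x hxm hxa using hx
      have hxinj : Function.Injective fun k => adr (x k) := by
        intro a b hab
        simp only [hxa] at hab
        exact (hm.natEmbedding _).injective (Subtype.ext hab)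
      let C : ℕ → Set P := fun k => {y | pr (x k) y ∉ U (x k) ∨ pr y (x k) ∉ U (x k)}
      have hC : ∀ k, (C k).Countable := by
        intro k
        have h1 := hNU (x k) (hxm k).1
        exact ((isOpen_def.1 (hopen _ _ h1.1)).2.1 (x k) h1.2).1
      refine ⟨m, range fun k => U (x k), ?_, countable_range _, ?_⟩
      · rintro _ ⟨k, rfl⟩
        have h1 := (hNU (x k) (hxm k).1).1
        rwa [(hxm k).2] at h1
      · have hcl : ∀ q : P, q ∉ ⋃ k, C k → pt q ∈ closure (⋃₀ range fun k => U (x k)) := by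
          intro q hq
          rw [mem_closure_iff]
          intro O hO hqO
          have h1 := ((isOpen_def.1 hO).2.1 q hqO).2
          have h2 : ∃ k, adr (x k) ∉ adr '' {y | pr q y ∉ O ∨ pr y q ∉ O} := by
            by_contra hno
            push Not at hno
            have h3 : (range fun k => adr (x k)).Finite :=
              h1.subset (by rintro _ ⟨k, rfl⟩; exact hno k)
            exact Set.infinite_range_of_injective hxinj h3
          obtain ⟨k, hk⟩ := h2
          have h3 : x k ∉ {y | pr q y ∉ O ∨ pr y q ∉ O} := fun h => hk ⟨_, h, rfl⟩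
          have h4 : q ∉ C k := fun h => hq (mem_iUnion.2 ⟨k, h⟩)
          simp only [C, mem_ofPred_eq, not_or, not_not] at h3 h4
          exact ⟨pr q (x k), h3.1, U (x k), ⟨k, rfl⟩, h4.2⟩
        have h1 : F \ closure (⋃₀ range fun k => U (x k)) ⊆ (pt '' (⋃ k, C k)) ∪
            ((fun p : P × P => pr p.1 p.2) '' {p : P × P | pr p.1 p.2 ∈ F}) ∪ {inf} := by
          rintro z ⟨hz, hzc⟩
          rcases X_cases z with ⟨y, rfl⟩ | ⟨a, b, rfl⟩ | rfl
          · refine Or.inl (Or.inl ⟨y, ?_, rfl⟩)
            by_contra hy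
            exact hzc (hcl y hy)
          · exact Or.inl (Or.inr ⟨(a, b), hz, rfl⟩)
          · exact Or.inr rfl
        refine Set.Countable.mono h1 ?_
        exact (((countable_iUnion hC).image _).union (hD.countable.image _)).union
          (countable_singleton _)
  · -- the extra point is in `F`
    have hi : inf ∈ F := by
      by_contra hc
      apply hD
      have h1 := (isOpen_def.1 hF.isOpen_compl).2.2 hc
      refine h1.subset ?_
      intro p hp
      simpa using hp
    obtain ⟨m, hm⟩ := mem_iUnion.1 (hcov hi)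
    obtain ⟨W, hW, hiW⟩ := hm
    have hWo : IsOpen W := hopen m W hW
    refine ⟨m, {W}, by simpa using hW, countable_singleton _, ?_⟩
    rw [sUnion_singleton]
    have h1 : F \ closure W ⊆
        ((fun p : P × P => pr p.1 p.2) '' {p : P × P | pr p.1 p.2 ∉ W}) := by
      rintro z ⟨hz, hzc⟩
      rcases X_cases z with ⟨y, rfl⟩ | ⟨a, b, rfl⟩ | rfl
      · exact absurd (pt_mem_closure_of_inf hWo hiW y) hzc
      · exact ⟨(a, b), fun h => hzc (subset_closure h), rfl⟩
      · exact absurd (subset_closure hiW) hzc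
    refine Set.Countable.mono h1 ?_
    exact (((isOpen_def.1 hWo).2.2 hiW).countable).image _

/-! ### The piecewise weak Lindelöf degree is uncountable -/

/-- Hereditary reachability. -/
inductive Reach : P → P → Prop
  | refl (x : P) : Reach x x
  | step (f : ℕ → P) (j : ℝ) (n : ℕ) (y : P) : Good f → Reach (f n) y → Reach (node f j) y

theorem Reach.down {x z : P} (h : Reach x z) :
    ∀ {f : ℕ → P} {j : ℝ}, z = node f j → Good f → ∀ n, Reach x (f n) := by
  induction h with
  | refl x =>
    rintro f j rfl hf n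
    exact Reach.step f j n _ hf (Reach.refl _)
  | step g i n y hg _ ih =>
    intro f j hz hf m
    exact Reach.step g i n _ hg (ih hz hf m)

theorem Reach.adr_suffix {x z : P} (h : Reach x z) : adr z <:+ adr x := by
  induction h with
  | refl x => exact List.suffix_refl _
  | step g i n y hg _ ih =>
    rw [hg.2 n] at ih
    exact ih.trans (List.suffix_cons i _)

theorem countable_reach (x : P) : {y | Reach x y}.Countable := by
  induction x with
  | leaf s =>
    refine (countable_singleton (leaf s)).mono ?_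
    intro y hy
    cases hy
    rfl
  | node f j ih =>
    refine ((countable_singleton (node f j)).union (countable_iUnion ih)).mono ?_
    intro y hy
    cases hy with
    | refl => exact Or.inl rfl
    | step _ _ n _ _ h => exact Or.inr (mem_iUnion.2 ⟨n, h⟩)

/-- Basic neighbourhood of a point of the first kind. -/
def nb (x : P) : Set X :=
  (pt '' {y | Reach x y}) ∪ {z | ∃ a b, z = pr a b ∧ (Reach x a ∨ Reach x b)}

theorem pt_mem_nb {x y : P} : pt y ∈ nb x ↔ Reach x y := by
  constructor
  · rintro (⟨z, hz, hzy⟩ | ⟨a, b, h, -⟩)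
    · rwa [← pt_inj.1 hzy]
    · exact absurd h pt_ne_pr
  · intro h
    exact Or.inl ⟨y, h, rfl⟩

theorem pr_mem_nb {x a b : P} : pr a b ∈ nb x ↔ Reach x a ∨ Reach x b := by
  constructor
  · rintro (⟨z, hz, hzy⟩ | ⟨a', b', h, h'⟩)
    · exact absurd hzy pt_ne_pr
    · obtain ⟨rfl, rfl⟩ := pr_inj.1 h
      exact h'
  · intro h
    exact Or.inr ⟨a, b, rfl, h⟩

theorem inf_notMem_nb {x : P} : inf ∉ nb x := by
  rintro (⟨z, hz, hzy⟩ | ⟨a', b', h, h'⟩)
  · exact pt_ne_inf hzy
  · exact pr_ne_inf h.symm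

theorem isOpen_nb (x : P) : IsOpen (nb x) := by
  rw [isOpen_def]
  refine ⟨fun f j hf hm => ?_, fun y hy => ?_, fun hi => absurd hi inf_notMem_nb⟩
  · have h1 : ∀ n, pt (f n) ∈ nb x := fun n => pt_mem_nb.2 ((pt_mem_nb.1 hm).down rfl hf n)
    simp [h1]
  · have h1 := pt_mem_nb.1 hy
    refine small_empty.mono ?_
    rintro z (hz | hz)
    · exact hz (pr_mem_nb.2 (Or.inl h1))
    · exact hz (pr_mem_nb.2 (Or.inr h1))

theorem isClosed_range_pt : IsClosed (range pt) := by
  rw [← isOpen_compl_iff, isOpen_def]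
  refine ⟨fun f j hf hm => absurd ⟨_, rfl⟩ hm, fun y hy => absurd ⟨_, rfl⟩ hy, fun _ => ?_⟩
  refine finite_empty.subset ?_
  intro p hp
  apply hp
  rintro ⟨y, hy⟩
  exact pt_ne_pr hy

/-- The decomposition of the cover `{nb x}` by addresses has no countable refinement. -/
theorem not_refine (𝒱 : List ℝ → Set (Set X)) (hV : ∀ c, 𝒱 c ⊆ {U | ∃ x, adr x = c ∧ U = nb x})
    (hVc : ∀ c, (𝒱 c).Countable) : ¬ range pt ⊆ ⋃ c, closure (⋃₀ 𝒱 c) := by
  classical
  let C : List ℝ → Set P := fun c => ⋃ V ∈ 𝒱 c, pt ⁻¹' V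
  have hCc : ∀ c, (C c).Countable := by
    intro c
    refine (hVc c).biUnion ?_
    intro V hVm
    obtain ⟨x, -, rfl⟩ := hV c hVm
    refine (countable_reach x).mono ?_
    intro y hy
    exact pt_mem_nb.1 hy
  have hCa : ∀ c, (adr '' C c).Finite := by
    intro c
    refine (List.finite_toSet c.tails).subset ?_
    rintro _ ⟨y, hy, rfl⟩
    simp only [C, mem_iUnion, exists_prop] at hy
    obtain ⟨V, hVm, hy⟩ := hy
    obtain ⟨x, hx, rfl⟩ := hV c hVm
    have := (pt_mem_nb.1 hy).adr_suffix
    rw [hx] at this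
    exact (List.mem_tails _ _).2 this
  -- a leaf outside all the `C c`
  have hleaf : ∃ s, ∀ c, leaf s ∉ C c := by
    by_contra hno
    push Not at hno
    have henum : ∀ c, ∃ e : ℕ → P, C c ⊆ range e := by
      intro c
      by_cases hne : (C c).Nonempty
      · obtain ⟨e, he⟩ := (hCc c).exists_eq_range hne
        exact ⟨e, he.subset⟩
      · rw [not_nonempty_iff_eq_empty] at hne
        exact ⟨fun _ => leaf ∅, by rw [hne]; exact empty_subset _⟩
    choose e he using henum
    let g : List ℝ × ℕ → Set (List ℝ × ℕ) := fun p =>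
      match e p.1 p.2 with
      | leaf s => s
      | node _ _ => ∅
    apply Function.cantor_surjective g
    intro s
    obtain ⟨c, hc⟩ := hno s
    obtain ⟨n, hn⟩ := he c hc
    exact ⟨(c, n), by simp only [g, hn]⟩
  obtain ⟨s, hs⟩ := hleaf
  intro hcov
  obtain ⟨c, hc⟩ := mem_iUnion.1 (hcov ⟨leaf s, rfl⟩)
  let O : Set X := {z | z = pt (leaf s)} ∪
    {z | ∃ a b, z = pr a b ∧ ((a = leaf s ∧ b ∉ C c) ∨ (b = leaf s ∧ a ∉ C c))}
  have hOpt : ∀ y, pt y ∈ O → y = leaf s := by
    rintro y (h | ⟨a, b, h, -⟩)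
    · exact pt_inj.1 h
    · exact absurd h pt_ne_pr
  have hOpr : ∀ a b, pr a b ∈ O → (a = leaf s ∧ b ∉ C c) ∨ (b = leaf s ∧ a ∉ C c) := by
    rintro a b (h | ⟨a', b', h, h'⟩)
    · exact absurd h.symm pt_ne_pr
    · obtain ⟨rfl, rfl⟩ := pr_inj.1 h
      exact h'
  have hOi : inf ∉ O := by
    rintro (h | ⟨a', b', h, h'⟩)
    · exact pt_ne_inf h.symm
    · exact pr_ne_inf h.symm
  have hO : IsOpen O := by
    rw [isOpen_def]
    refine ⟨fun f j hf hm => ?_, fun y hy => ?_, fun hi => absurd hi hOi⟩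
    · have := hOpt _ hm
      cases this
    · have hy' := hOpt _ hy
      subst hy'
      refine Small.mono ⟨hCc c, hCa c⟩ ?_
      rintro z (hz | hz)
      · by_contra hzC
        exact hz (Or.inr ⟨_, _, rfl, Or.inl ⟨rfl, hzC⟩⟩)
      · by_contra hzC
        exact hz (Or.inr ⟨_, _, rfl, Or.inr ⟨rfl, hzC⟩⟩)
  obtain ⟨z, hzO, V, hVm, hzV⟩ := mem_closure_iff.1 hc O hO (Or.inl rfl)
  obtain ⟨x, hx, rfl⟩ := hV c hVm
  have hsub : ∀ y, Reach x y → y ∈ C c := by
    intro y hy
    simp only [C, mem_iUnion, exists_prop]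
    exact ⟨nb x, hVm, pt_mem_nb.2 hy⟩
  rcases X_cases z with ⟨y, rfl⟩ | ⟨a, b, rfl⟩ | rfl
  · have h1 := hOpt _ hzO
    subst h1
    exact hs c (hsub _ (pt_mem_nb.1 hzV))
  · have h1 := pr_mem_nb.1 hzV
    rcases hOpr _ _ hzO with ⟨rfl, hb⟩ | ⟨rfl, ha⟩
    · rcases h1 with h1 | h1
      · exact hs c (hsub _ h1)
      · exact hb (hsub _ h1)
    · rcases h1 with h1 | h1
      · exact ha (hsub _ h1)
      · exact hs c (hsub _ h1)
  · exact hOi hzO

end Pool.Agent.R584.QL
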