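import Mathlib

set_option autoImplicit false

/-!
# Closed bounded sets which avoid a stationary set, ordered by end-extension
-/

namespace Pool.Agent.R584.Sing

open Cardinal Set

universe u

section wo

variable {K : Type u} [LinearOrder K]

theorem exists_lub [WellFoundedLT K] {S : Set K} (h : BddAbove S) : ∃ b, IsLUB S b := by
  obtain ⟨b, hb, hmin⟩ := WellFounded.has_min (wellFounded_lt (α := K)) (upperBounds S) h
  exact ⟨b, hb, fun a ha => not_lt.1 (hmin a ha)⟩

/-- `b` is a limit of elements of `D` -/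
def LimOf (D : Set K) (b : K) : Prop := (∃ a, a < b) ∧ ∀ a < b, ∃ d ∈ D, a < d ∧ d < b

/-- closed sets -/
def Clo (D : Set K) : Prop := ∀ b, LimOf D b → b ∈ D

/-- unbounded sets -/
def Unb (D : Set K) : Prop := ∀ a, ∃ d ∈ D, a < d

/-- stationary sets: they meet all closed unbounded sets -/
def Stat (B : Set K) : Prop := ∀ D, Clo D → Unb D → ∃ b ∈ D, b ∈ B

theorem Stat.unb [NoMaxOrder K] {B : Set K} (hB : Stat B) : Unb B := by
  intro a
  obtain ⟨b, h1, h2⟩ := hB {x | a < x} (fun b hb => by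
    obtain ⟨a', ha'⟩ := hb.1
    obtain ⟨d, hd, -, h⟩ := hb.2 a' ha'
    exact lt_trans hd h) (fun c => by
    obtain ⟨d, hd⟩ := exists_gt (max a c)
    exact ⟨d, lt_of_le_of_lt (le_max_left _ _) hd, lt_of_le_of_lt (le_max_right _ _) hd⟩)
  exact ⟨b, h2, h1⟩

/-- every set of size at most `lam` has a strict upper bound -/
def SmallBdd (K : Type u) [LinearOrder K] (lam : Cardinal.{u}) : Prop :=
  ∀ S : Set K, #S ≤ lam → ∃ b, ∀ s ∈ S, s < b

/-- Ulam matrices -/
theorem ulam [WellFoundedLT K] [Nonempty K] {lam : Cardinal.{u}} (hlam : ℵ₀ ≤ lam)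
    (hI : ∀ a : K, #(Iio a) ≤ lam) (hbd : SmallBdd K lam) (hK : #K = Order.succ lam) :
    ∃ (I : Type u) (B : I → Set K), #I = Order.succ lam ∧ (∀ i, Stat (B i)) ∧
      ∀ i j, i ≠ j → Disjoint (B i) (B j) := by
  classical
  -- the injections
  have hf : ∀ b : K, ∃ f : Iio b → lam.ord.ToType, Function.Injective f := by
    intro b
    have := hI b
    rw [← mk_ord_toType lam, Cardinal.le_def] at this
    obtain ⟨g⟩ := this
    exact ⟨g, g.injective⟩
  choose f hf using hf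
  let U : K → lam.ord.ToType → Set K := fun a x => {b | ∃ h : a < b, f b ⟨a, h⟩ = x}
  have hU : ∀ a, ∃ x, Stat (U a x) := by
    intro a
    by_contra hcon
    push Not at hcon
    have : ∀ x, ∃ D, Clo D ∧ Unb D ∧ ∀ b ∈ D, b ∉ U a x := by
      intro x
      have := hcon x
      unfold Stat at this
      push Not at this
      obtain ⟨D, h1, h2, h3⟩ := this
      exact ⟨D, h1, h2, h3⟩
    choose D hD1 hD2 hD3 using this
    choose nx hnx1 hnx2 using hD2
    have hst : ∀ c : K, ∃ e, c < e ∧ ∀ x, nx x c < e := by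
      intro c
      have h1 : #(insert c (range fun x => nx x c) : Set K) ≤ lam := by
        refine (mk_insert_le).trans ?_
        have : #(range fun x => nx x c) ≤ lam := by
          refine mk_range_le.trans ?_
          rw [mk_ord_toType]
        exact (add_le_add this (one_le_aleph0.trans hlam)).trans (add_eq_self hlam).le
      obtain ⟨e, he⟩ := hbd _ h1
      exact ⟨e, he c (mem_insert _ _), fun x => he _ (mem_insert_of_mem _ ⟨x, rfl⟩)⟩
    choose e he1 he2 using hst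
    obtain ⟨s, hs0, hs⟩ : ∃ s : ℕ → K, s 0 = a ∧ ∀ n, s (n + 1) = e (s n) :=
      ⟨fun n => Nat.rec a (fun _ y => e y) n, rfl, fun n => rfl⟩
    have hsb : #(range s) ≤ lam :=
      (Cardinal.le_aleph0_iff_set_countable.2 (countable_range s)).trans hlam
    obtain ⟨b0, hb0⟩ := hbd _ hsb
    obtain ⟨b, hb⟩ := exists_lub (S := range s) ⟨b0, by rintro _ ⟨n, rfl⟩; exact (hb0 _ ⟨n, rfl⟩).le⟩
    have hlt : ∀ n, s n < b := fun n => by
      have : s n < s (n + 1) := by rw [hs]; exact he1 _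
      exact this.trans_le (hb.1 ⟨n + 1, rfl⟩)
    have hab : a < b := hs0 ▸ hlt 0
    have hbD : b ∈ D (f b ⟨a, hab⟩) := by
      apply hD1
      refine ⟨⟨a, hab⟩, fun c hc => ?_⟩
      have : ∃ n, c < s n := by
        by_contra hcon2
        push Not at hcon2
        exact absurd (hb.2 (by rintro _ ⟨n, rfl⟩; exact hcon2 n)) (not_le.2 hc)
      obtain ⟨n, hn⟩ := this
      refine ⟨nx _ (s n), hnx1 _ _, hn.trans (hnx2 _ _), ?_⟩
      have h2 : nx (f b ⟨a, hab⟩) (s n) < s (n + 1) := by rw [hs]; exact he2 _ _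
      exact h2.trans (hlt (n + 1))
    exact hD3 _ _ hbD ⟨hab, rfl⟩
  choose xi hxi using hU
  -- pigeonhole
  have hreg : (Order.succ lam).IsRegular := isRegular_succ hlam
  obtain ⟨x, hx⟩ := Cardinal.infinite_pigeonhole_card xi (Order.succ lam) hK.ge hreg.1 (by
    rw [mk_ord_toType, hreg.cof_ord]
    exact Order.lt_succ lam)
  obtain ⟨I, hI1, hI2⟩ := (le_mk_iff_exists_subset (s := xi ⁻¹' {x})).1 hx
  refine ⟨I, fun i => U i x, hI2, fun i => ?_, fun i j hij => ?_⟩
  · have : xi i = x := hI1 i.2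
    rw [← this]
    exact hxi i
  · rw [Set.disjoint_left]
    rintro b ⟨h1, h2⟩ ⟨h3, h4⟩
    have := hf b (h2.trans h4.symm)
    exact hij (Subtype.ext (Subtype.mk.inj this))

end wo

section poset

variable {K : Type u} [LinearOrder K] {I : Type u} {B : I → Set K}

/-- A point of the partially ordered set: an index `i` and a closed set `c` with a largest element
`m` which is disjoint from `B i`. -/
@[ext]
structure Pt (B : I → Set K) where
  /-- the index -/
  i : I
  /-- the closed set -/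
  c : Set K
  /-- the largest element -/
  m : K
  hm : m ∈ c
  hmax : ∀ x ∈ c, x ≤ m
  clo : Clo c
  disj : ∀ x ∈ c, x ∉ B i

instance : PartialOrder (Pt B) where
  le p q := p.i = q.i ∧ p.c ⊆ q.c ∧ ∀ x ∈ q.c, x ≤ p.m → x ∈ p.c
  le_refl p := ⟨rfl, subset_rfl, fun _ h _ => h⟩
  le_trans p q r h1 h2 := ⟨h1.1.trans h2.1, h1.2.1.trans h2.2.1, fun x hx hxm =>
    h1.2.2 x (h2.2.2 x hx (hxm.trans (q.hmax _ (h1.2.1 p.hm)))) hxm⟩
  le_antisymm p q h1 h2 := by
    have hc : p.c = q.c := subset_antisymm h1.2.1 h2.2.1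
    have hm : p.m = q.m := le_antisymm (q.hmax _ (h1.2.1 p.hm)) (p.hmax _ (h2.2.1 q.hm))
    exact Pt.ext h1.1 hc hm

theorem le_def {p q : Pt B} :
    p ≤ q ↔ p.i = q.i ∧ p.c ⊆ q.c ∧ ∀ x ∈ q.c, x ≤ p.m → x ∈ p.c := Iff.rfl

theorem m_le {p q : Pt B} (h : p ≤ q) : p.m ≤ q.m := q.hmax _ (h.2.1 p.hm)

theorem eq_of_m {p q : Pt B} (h : p ≤ q) (hm : p.m = q.m) : p = q := by
  refine Pt.ext h.1 (subset_antisymm h.2.1 fun x hx => h.2.2 x hx ?_) hm
  rw [hm]
  exact q.hmax x hx

theorem m_lt {p q : Pt B} (h : p < q) : p.m < q.m :=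
  lt_of_le_of_ne (m_le h.le) fun hm => h.ne (eq_of_m h.le hm)

/-- if `p` and `q` are comparable, then an element of `q` below the maximum of `p` is in `p` -/
theorem mem_of_le {p q : Pt B} (h : p ≤ q ∨ q ≤ p) {x : K} (hx : x ∈ q.c) (hxm : x ≤ p.m) :
    x ∈ p.c := by
  rcases h with h | h
  · exact h.2.2 x hx hxm
  · exact h.2.1 hx

theorem chain_inj {C : Set (Pt B)} (hC : IsChain (· ≤ ·) C) : InjOn Pt.m C := by
  intro p hp q hq hm
  rcases hC.total hp hq with h | h
  · exact eq_of_m h hm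
  · exact (eq_of_m h hm.symm).symm

/-- chains are small -/
theorem chain_le [Nonempty K] {lam : Cardinal.{u}} (hI : ∀ a : K, #(Iic a) ≤ lam)
    (hB : ∀ i, Stat (B i)) {C : Set (Pt B)} (hC : IsChain (· ≤ ·) C) : #C ≤ lam := by
  by_cases hb : ∃ b, ∀ p ∈ C, p.m ≤ b
  · obtain ⟨b, hb⟩ := hb
    have h1 : #C = #(Pt.m '' C) := (mk_image_eq_of_injOn _ _ (chain_inj hC)).symm
    rw [h1]
    refine (mk_le_mk_of_subset ?_).trans (hI b)
    rintro _ ⟨p, hp, rfl⟩
    exact hb p hp
  · exfalso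
    push Not at hb
    obtain ⟨p0, hp0, -⟩ := hb (Classical.arbitrary K)
    have hi : ∀ p ∈ C, p.i = p0.i := fun p hp => by
      rcases hC.total hp hp0 with h | h
      · exact h.1
      · exact h.1.symm
    have hD : Clo {x | ∃ p ∈ C, x ∈ p.c} := by
      intro b hlb
      obtain ⟨p, hp, hpb⟩ := hb b
      refine ⟨p, hp, p.clo b ⟨hlb.1, fun a ha => ?_⟩⟩
      obtain ⟨d, ⟨q, hq, hd⟩, h1, h2⟩ := hlb.2 a ha
      exact ⟨d, mem_of_le (hC.total hp hq) hd (h2.trans hpb).le, h1, h2⟩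
    have hU : Unb {x | ∃ p ∈ C, x ∈ p.c} := fun a => by
      obtain ⟨p, hp, hpa⟩ := hb a
      exact ⟨p.m, ⟨p, hp, p.hm⟩, hpa⟩
    obtain ⟨b, ⟨p, hp, hbp⟩, hbB⟩ := hB p0.i _ hD hU
    refine p.disj b hbp ?_
    rw [hi p hp]
    exact hbB

/-- points with a given index -/
theorem exists_pt (i : I) {b : K} (hb : b ∉ B i) : ∃ p : Pt B, p.i = i :=
  ⟨⟨i, {b}, b, rfl, fun x hx => (mem_singleton_iff.1 hx).le, fun c hc => by
    exfalso
    obtain ⟨a, ha⟩ := hc.1
    obtain ⟨d, hd, h1, h2⟩ := hc.2 a ha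
    obtain ⟨d', hd', h1', h2'⟩ := hc.2 d h2
    rw [mem_singleton_iff] at hd hd'
    subst hd
    subst hd'
    exact lt_irrefl _ h1', fun x hx => by
      rw [mem_singleton_iff.1 hx]
      exact hb⟩, rfl⟩

/-- every point can be extended -/
theorem exists_gt_pt (hB : ∀ i, Unb (B i)ᶜ) (p : Pt B) : ∃ q : Pt B, p < q := by
  obtain ⟨b, hb, hpb⟩ := hB p.i p.m
  refine ⟨⟨p.i, insert b p.c, b, mem_insert _ _, ?_, ?_, ?_⟩, ?_⟩
  · rintro x (rfl | hx)
    · exact le_rfl
    · exact (p.hmax x hx).trans hpb.le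
  · intro c hc
    rcases lt_trichotomy c b with h | h | h
    · right
      apply p.clo
      refine ⟨hc.1, fun a ha => ?_⟩
      obtain ⟨d, hd, h1, h2⟩ := hc.2 a ha
      refine ⟨d, hd.resolve_left ?_, h1, h2⟩
      rintro rfl
      exact lt_asymm h h2
    · exact Or.inl h
    · exfalso
      obtain ⟨d, hd, h1, h2⟩ := hc.2 b h
      rcases hd with rfl | hd
      · exact lt_irrefl _ h1
      · exact absurd ((p.hmax d hd).trans hpb.le) (not_le.2 h1)
  · rintro x (rfl | hx)
    · exact hb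
    · exact p.disj x hx
  · refine lt_of_le_of_ne ⟨rfl, subset_insert _ _, ?_⟩ ?_
    · rintro x (rfl | hx) hxm
      · exact absurd hxm (not_le.2 hpb)
      · exact hx
    · intro he
      have : p.m = b := congrArg Pt.m he
      exact hpb.ne this

end poset

/-- dependent choice along a well-founded relation -/
theorem wf_choice {J : Type*} {r : J → J → Prop} (wf : WellFounded r) {A : Type*}
    (Φ : (j : J) → ((k : J) → r k j → A) → A → Prop) (h : ∀ j prev, ∃ v, Φ j prev v) :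
    ∃ f : J → A, ∀ j, Φ j (fun k _ => f k) (f j) := by
  refine ⟨wf.fix fun j prev => (h j prev).choose, fun j => ?_⟩
  conv => rhs; rw [WellFounded.fix_eq]
  exact (h j _).choose_spec

section key

variable {K : Type u} [LinearOrder K] [WellFoundedLT K] {I : Type u} {B : I → Set K}

theorem key0 {lam : Cardinal.{u}} (hbd : SmallBdd K lam)
    (hdis : ∀ i j, i ≠ j → Disjoint (B i) (B j)) {J : Type u} [LinearOrder J] [WellFoundedLT J]
    (hlam : ℵ₀ ≤ lam) (Y : Set I) (hJ : #J < #Y) (hY : #Y ≤ lam) (p : I → Pt B)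
    (hp : ∀ y ∈ Y, (p y).i = y) (h : J → Pt B → Pt B) (hh : ∀ j q, q ≤ h j q) :
    ∃ y ∈ Y, ∃ r : J → Pt B, (∀ j, p y ≤ r j) ∧ ∀ k j, k < j → h k (r k) ≤ r j := by
  classical
  -- a bound for the starting points
  have hY' : ∀ F : I → K, #(F '' Y) ≤ lam := fun F => mk_image_le.trans hY
  obtain ⟨g0, hg0⟩ := hbd ((fun y => (p y).m) '' Y) (hY' _)
  replace hg0 : ∀ y ∈ Y, (p y).m < g0 := fun y hy => hg0 _ ⟨y, hy, rfl⟩
  -- the recursion
  let cc : (j : J) → ((k : J) → k < j → (I → Pt B) × K × K) → K → I → Set K :=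
    fun j prev b y => (p y).c ∪ {x | ∃ k, ∃ hk : k < j, x ∈ (h k ((prev k hk).1 y)).c} ∪ {b}
  let Φ : (j : J) → ((k : J) → k < j → (I → Pt B) × K × K) → (I → Pt B) × K × K → Prop :=
    fun j prev v => IsLUB (insert g0 {x | ∃ k, ∃ hk : k < j, x = (prev k hk).2.2}) v.2.1 ∧
      (∀ y, (∀ x ∈ cc j prev v.2.1 y, x ≤ v.2.1) → Clo (cc j prev v.2.1 y) →
        (∀ x ∈ cc j prev v.2.1 y, x ∉ B y) →
        (v.1 y).i = y ∧ (v.1 y).c = cc j prev v.2.1 y ∧ (v.1 y).m = v.2.1) ∧
      v.2.1 < v.2.2 ∧ ∀ y ∈ Y, (h j (v.1 y)).m < v.2.2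
  have hΦ : ∀ j prev, ∃ v, Φ j prev v := by
    intro j prev
    -- the point `β`
    have h1 : #(insert g0 {x | ∃ k, ∃ hk : k < j, x = (prev k hk).2.2} : Set K) ≤ lam := by
      refine mk_insert_le.trans ?_
      have h2 : #{x | ∃ k, ∃ hk : k < j, x = (prev k hk).2.2} ≤ lam := by
        have h3 : {x | ∃ k, ∃ hk : k < j, x = (prev k hk).2.2} ⊆
            range fun k : Iio j => (prev k.1 k.2).2.2 := by
          rintro x ⟨k, hk, rfl⟩
          exact ⟨⟨k, hk⟩, rfl⟩
        exact (mk_le_mk_of_subset h3).trans (mk_range_le.trans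
          ((mk_set_le _).trans (hJ.le.trans hY)))
      exact (add_le_add h2 (one_le_aleph0.trans hlam)).trans (add_eq_self hlam).le
    obtain ⟨b0, hb0⟩ := hbd _ h1
    obtain ⟨b, hb⟩ := exists_lub (S := insert g0 {x | ∃ k, ∃ hk : k < j, x = (prev k hk).2.2})
      ⟨b0, fun x hx => (hb0 x hx).le⟩
    -- the points `r y`
    have hr : ∀ y, ∃ q : Pt B, (∀ x ∈ cc j prev b y, x ≤ b) → Clo (cc j prev b y) →
        (∀ x ∈ cc j prev b y, x ∉ B y) → q.i = y ∧ q.c = cc j prev b y ∧ q.m = b := by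
      intro y
      by_cases hv : (∀ x ∈ cc j prev b y, x ≤ b) ∧ Clo (cc j prev b y) ∧
        (∀ x ∈ cc j prev b y, x ∉ B y)
      · exact ⟨⟨y, cc j prev b y, b, Or.inr rfl, hv.1, hv.2.1, hv.2.2⟩, fun _ _ _ =>
          ⟨rfl, rfl, rfl⟩⟩
      · exact ⟨p y, fun h1 h2 h3 => absurd ⟨h1, h2, h3⟩ hv⟩
    choose r hr using hr
    -- the bound `γ`
    have h4 : #(insert b ((fun y => (h j (r y)).m) '' Y) : Set K) ≤ lam := by
      refine mk_insert_le.trans ?_
      exact (add_le_add (hY' _) (one_le_aleph0.trans hlam)).trans (add_eq_self hlam).le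
    obtain ⟨g, hg⟩ := hbd _ h4
    exact ⟨(r, b, g), hb, hr, hg _ (mem_insert _ _), fun y hy =>
      hg _ (mem_insert_of_mem _ ⟨y, hy, rfl⟩)⟩
  obtain ⟨f, hf⟩ := wf_choice (wellFounded_lt (α := J)) Φ hΦ
  -- names for the parts
  let r : J → I → Pt B := fun j => (f j).1
  let be : J → K := fun j => (f j).2.1
  let ga : J → K := fun j => (f j).2.2
  let c : J → I → Set K := fun j y =>
    (p y).c ∪ {x | ∃ k, ∃ _ : k < j, x ∈ (h k (r k y)).c} ∪ {be j}
  have F1 : ∀ j, IsLUB (insert g0 {x | ∃ k, ∃ _ : k < j, x = ga k}) (be j) := fun j => (hf j).1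
  have F2 : ∀ j y, (∀ x ∈ c j y, x ≤ be j) → Clo (c j y) → (∀ x ∈ c j y, x ∉ B y) →
      (r j y).i = y ∧ (r j y).c = c j y ∧ (r j y).m = be j := fun j => (hf j).2.1
  have F3 : ∀ j, be j < ga j := fun j => (hf j).2.2.1
  have F4 : ∀ j, ∀ y ∈ Y, (h j (r j y)).m < ga j := fun j => (hf j).2.2.2
  have G1 : ∀ j, g0 ≤ be j := fun j => (F1 j).1 (mem_insert _ _)
  have G2 : ∀ k j, k < j → ga k ≤ be j := fun k j hk =>
    (F1 j).1 (mem_insert_of_mem _ ⟨k, hk, rfl⟩)
  -- an index which is never killed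
  obtain ⟨y, hyY, hy⟩ : ∃ y ∈ Y, ∀ j, be j ∉ B y := by
    by_contra hcon
    push Not at hcon
    have : ∀ y : Y, ∃ j, be j ∈ B y.1 := fun y => hcon y.1 y.2
    choose e he using this
    have hinj : Function.Injective e := by
      intro y z hyz
      by_contra hne
      have h1 := he y
      have h2 := he z
      rw [← hyz] at h2
      exact Set.disjoint_left.1 (hdis y.1 z.1 fun h => hne (Subtype.ext h)) h1 h2
    exact absurd (mk_le_of_injective hinj) (not_le.2 hJ)
  refine ⟨y, hyY, fun j => r j y, ?_⟩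
  -- the induction
  have E : ∀ j, ((r j y).i = y ∧ (r j y).c = c j y ∧ (r j y).m = be j) ∧
      (∀ x ∈ (r j y).c, x < g0 → x ∈ (p y).c) ∧
      (∀ k < j, ∀ x ∈ (r j y).c, x < ga k → x ∈ (h k (r k y)).c) ∧
      p y ≤ r j y ∧ ∀ k < j, h k (r k y) ≤ r j y := by
    intro j
    induction j using WellFoundedLT.induction with
    | ind j ih =>
      have A1 : ∀ x ∈ c j y, x < g0 → x ∈ (p y).c := by
        rintro x ((hx | ⟨l, hl, hx⟩) | hx) hxg
        · exact hx
        · obtain ⟨⟨-, -, h3⟩, h4, -⟩ := ih l hl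
          exact h4 x ((hh l (r l y)).2.2 x hx (by rw [h3]; exact hxg.le.trans (G1 l))) hxg
        · rw [mem_singleton_iff.1 hx] at hxg
          exact absurd (G1 j) (not_le.2 hxg)
      have A2 : ∀ k < j, ∀ x ∈ c j y, x < ga k → x ∈ (h k (r k y)).c := by
        intro k hk
        rintro x ((hx | ⟨l, hl, hx⟩) | hx) hxg
        · exact ((ih k hk).2.2.2.1.trans (hh k _)).2.1 hx
        · rcases lt_trichotomy l k with hlk | hlk | hlk
          · exact (((ih k hk).2.2.2.2 l hlk).trans (hh k _)).2.1 hx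
          · subst hlk
            exact hx
          · obtain ⟨⟨-, -, h3⟩, -, h4, -⟩ := ih l hl
            exact h4 k hlk x ((hh l (r l y)).2.2 x hx
              (by rw [h3]; exact hxg.le.trans (G2 k l hlk))) hxg
        · rw [mem_singleton_iff.1 hx] at hxg
          exact absurd (G2 k j hk) (not_le.2 hxg)
      have A3 : ∀ x ∈ c j y, x ≤ be j := by
        rintro x ((hx | ⟨l, hl, hx⟩) | hx)
        · exact ((p y).hmax x hx).trans ((hg0 y hyY).le.trans (G1 j))
        · exact (Pt.hmax _ x hx).trans ((F4 l y hyY).le.trans (G2 l j hl))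
        · exact (mem_singleton_iff.1 hx).le
      have A4 : ∀ x ∈ c j y, x ∉ B y := by
        rintro x ((hx | ⟨l, hl, hx⟩) | hx)
        · have := (p y).disj x hx
          rwa [hp y hyY] at this
        · have := (h l (r l y)).disj x hx
          rwa [← (hh l (r l y)).1, (ih l hl).1.1] at this
        · rw [mem_singleton_iff.1 hx]
          exact hy j
      have A5 : Clo (c j y) := by
        intro b hb
        rcases lt_trichotomy b (be j) with hlt | heq | hgt
        · -- below the least upper bound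
          have : ∃ g ∈ insert g0 {x | ∃ k, ∃ _ : k < j, x = ga k}, b < g := by
            by_contra hcon
            push Not at hcon
            exact absurd ((F1 j).2 hcon) (not_le.2 hlt)
          obtain ⟨g, hg | ⟨k, hk, hg⟩, hbg⟩ := this
          · subst hg
            refine Or.inl (Or.inl ((p y).clo b ⟨hb.1, fun a ha => ?_⟩))
            obtain ⟨d, hd, h1, h2⟩ := hb.2 a ha
            exact ⟨d, A1 d hd (h2.trans hbg), h1, h2⟩
          · subst hg
            refine Or.inl (Or.inr ⟨k, hk, (h k (r k y)).clo b ⟨hb.1, fun a ha => ?_⟩⟩)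
            obtain ⟨d, hd, h1, h2⟩ := hb.2 a ha
            exact ⟨d, A2 k hk d hd (h2.trans hbg), h1, h2⟩
        · exact Or.inr heq
        · exfalso
          obtain ⟨d, hd, h1, h2⟩ := hb.2 _ hgt
          exact absurd (A3 d hd) (not_le.2 h1)
      have A6 := F2 j y A3 A5 A4
      refine ⟨A6, ?_, ?_, ?_, ?_⟩
      · rw [A6.2.1]
        exact A1
      · rw [A6.2.1]
        exact A2
      · refine ⟨(hp y hyY).trans A6.1.symm, ?_, ?_⟩
        · rw [A6.2.1]
          exact fun x hx => Or.inl (Or.inl hx)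
        · rw [A6.2.1]
          exact fun x hx hxm => A1 x hx (hxm.trans_lt (hg0 y hyY))
      · intro k hk
        refine ⟨?_, ?_, ?_⟩
        · rw [← (hh k (r k y)).1, (ih k hk).1.1, A6.1]
        · rw [A6.2.1]
          exact fun x hx => Or.inl (Or.inr ⟨k, hk, hx⟩)
        · rw [A6.2.1]
          exact fun x hx hxm => A2 k hk x hx (hxm.trans_lt (F4 k y hyY))
  exact ⟨fun j => (E j).2.2.2.1, fun k j hk => (E j).2.2.2.2 k hk⟩

theorem key {lam : Cardinal.{u}} (hbd : SmallBdd K lam)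
    (hdis : ∀ i j, i ≠ j → Disjoint (B i) (B j)) {J : Type u} [LinearOrder J] [WellFoundedLT J]
    (hlam : ℵ₀ ≤ lam) (Y : Set I) (hJ : #J + 1 < #Y) (hY : #Y ≤ lam) (p : I → Pt B)
    (hp : ∀ y ∈ Y, (p y).i = y) (h : J → Pt B → Pt B) (hh : ∀ j q, q ≤ h j q) :
    ∃ y ∈ Y, ∃ (r : J → Pt B) (q : Pt B), (∀ j, p y ≤ r j) ∧ (∀ k j, k < j → h k (r k) ≤ r j) ∧
      p y ≤ q ∧ ∀ j, h j (r j) ≤ q := by
  have hJ' : #(WithTop J) < #Y := by
    have : #(WithTop J) = #J + 1 := mk_option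
    rw [this]
    exact hJ
  obtain ⟨y, hy, r, h1, h2⟩ := key0 hbd hdis (J := WithTop J) hlam Y hJ' hY p hp
    (fun j q => match j with
      | ⊤ => q
      | (j : J) => h j q) (by
      intro j q
      cases j with
      | top => exact le_rfl
      | coe j => exact hh j q)
  refine ⟨y, hy, fun j => r j, r ⊤, fun j => h1 _, fun k j hk => ?_, h1 _, fun j => ?_⟩
  · exact h2 k j (WithTop.coe_lt_coe.2 hk)
  · exact h2 j ⊤ (WithTop.coe_lt_top j)

end key

end Pool.Agent.R584.Sing
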