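import Pool.Agent.R584.Sing1

set_option autoImplicit false

/-!
# Maximal chains of singular size in cofinal subsets
-/

namespace Pool.Agent.R584.Sing

open Cardinal Set

universe u

section good

variable {K : Type u} [LinearOrder K] {I : Type u} {B : I → Set K}

/-- above `p` there is a chain of elements of `Q` with at least `mu` elements which has an upper
bound -/
def Good (Q : Set (Pt B)) (mu : Cardinal.{u}) (p : Pt B) : Prop :=
  ∃ (C : Set (Pt B)) (q : Pt B), C ⊆ Q ∧ IsChain (· ≤ ·) C ∧ (∀ c ∈ C, p ≤ c ∧ c ≤ q) ∧ p ≤ q ∧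
    mu ≤ #C

theorem bad_le [WellFoundedLT K] {lam mu : Cardinal.{u}} (hbd : SmallBdd K lam)
    (hdis : ∀ i j, i ≠ j → Disjoint (B i) (B j)) (hBc : ∀ i, Unb (B i)ᶜ)
    (Q : Set (Pt B)) (hQ : ∀ p, ∃ q ∈ Q, p ≤ q) (hlam : ℵ₀ ≤ lam) (hmu : max mu ℵ₀ < lam) :
    #{i : I | ∃ p : Pt B, p.i = i ∧ ¬ Good Q mu p} ≤ max mu ℵ₀ := by
  by_contra hcon
  rw [not_le] at hcon
  obtain ⟨Y, hY1, hY2⟩ := le_mk_iff_exists_subset.1 (Order.succ_le_of_lt hcon)
  have hYlam : #Y ≤ lam := hY2.le.trans (Order.succ_le_of_lt hmu)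
  have hp : ∀ i, ∃ p : Pt B, i ∈ Y → p.i = i ∧ ¬ Good Q mu p := by
    intro i
    by_cases hi : i ∈ Y
    · obtain ⟨p, hp⟩ := hY1 hi
      exact ⟨p, fun _ => hp⟩
    · have : Y.Nonempty := by
        rw [← Set.nonempty_coe_sort, ← mk_ne_zero_iff, hY2]
        exact Order.succ_ne_bot _
      obtain ⟨y, hy⟩ := this
      obtain ⟨p, hp⟩ := hY1 hy
      exact ⟨p, fun h => absurd h hi⟩
  choose p hp using hp
  choose up hup using exists_gt_pt hBc
  choose g hgQ hg using hQ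
  have hJ : #(mu.ord.ToType) + 1 < #Y := by
    rw [mk_ord_toType, hY2, Order.lt_succ_iff]
    calc mu + 1 ≤ max mu ℵ₀ + max mu ℵ₀ :=
          add_le_add (le_max_left _ _) (one_le_aleph0.trans (le_max_right _ _))
      _ = max mu ℵ₀ := add_eq_self (le_max_right _ _)
  obtain ⟨y, hy, r, q, h1, h2, h2', h3⟩ := key (J := mu.ord.ToType) hbd hdis hlam Y hJ hYlam p
    (fun y hy => (hp y hy).1) (fun _ q => g (up q)) (fun _ q => (hup q).le.trans (hg _))
  refine (hp y hy).2 ⟨range fun j => g (up (r j)), q, ?_, ?_, ?_, h2', ?_⟩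
  · rintro _ ⟨j, rfl⟩
    exact hgQ _
  · have hlt : ∀ k j, k < j → g (up (r k)) ≤ g (up (r j)) := fun k j hkj =>
      (h2 k j hkj).trans ((hup _).le.trans (hg _))
    rintro _ ⟨k, rfl⟩ _ ⟨j, rfl⟩ -
    rcases lt_trichotomy k j with h | h | h
    · exact Or.inl (hlt k j h)
    · subst h
      exact Or.inl le_rfl
    · exact Or.inr (hlt j k h)
  · rintro _ ⟨j, rfl⟩
    exact ⟨(h1 j).trans ((hup _).le.trans (hg _)), h3 j⟩
  · rw [mk_range_eq _ ?_, mk_ord_toType]
    intro j k hjk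
    have hlt : ∀ k j, k < j → g (up (r k)) < g (up (r j)) := fun k j hkj =>
      (h2 k j hkj).trans_lt ((hup _).trans_le (hg _))
    rcases lt_trichotomy k j with h | h | h
    · exact absurd hjk.symm (hlt k j h).ne
    · exact h.symm
    · exact absurd hjk (hlt j k h).ne

theorem main [WellFoundedLT K] [Nonempty K] {lam : Cardinal.{u}} (hs : lam.IsSingular)
    (hI : ∀ a : K, #(Iic a) ≤ lam) (hbd : SmallBdd K lam)
    (hdis : ∀ i j, i ≠ j → Disjoint (B i) (B j)) (hB : ∀ i, Stat (B i)) (hBc : ∀ i, Unb (B i)ᶜ)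
    (hIc : #I = Order.succ lam)
    (Q : Set (Pt B)) (hQ : ∀ p, ∃ q ∈ Q, p ≤ q) :
    ∃ C : Set Q, IsMaxChain (· ≤ ·) C ∧ #C = lam := by
  classical
  -- it is enough to find a chain with at least `lam` elements
  suffices H : ∃ C : Set (Pt B), C ⊆ Q ∧ IsChain (· ≤ ·) C ∧ lam ≤ #C by
    obtain ⟨C, h1, h2, h3⟩ := H
    have h4 : IsChain (· ≤ ·) ((Subtype.val : Q → Pt B) ⁻¹' C) := by
      intro a ha b hb hab
      exact h2 ha hb fun h => hab (Subtype.ext h)
    obtain ⟨M, hM1, hM2⟩ := h4.exists_maxChain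
    refine ⟨M, hM1, le_antisymm ?_ ?_⟩
    · have h5 : IsChain (· ≤ ·) ((Subtype.val : Q → Pt B) '' M) := by
        rintro _ ⟨a, ha, rfl⟩ _ ⟨b, hb, rfl⟩ hab
        exact hM1.1 ha hb fun h => hab (h ▸ rfl)
      rw [← mk_image_eq (s := M) (f := (Subtype.val : Q → Pt B)) Subtype.val_injective]
      exact chain_le hI hB h5
    · refine h3.trans ?_
      rw [← mk_image_eq (s := M) (f := (Subtype.val : Q → Pt B)) Subtype.val_injective]
      refine mk_le_mk_of_subset fun c hc => ?_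
      exact ⟨⟨c, h1 hc⟩, hM2 hc, rfl⟩
  have hlam : ℵ₀ < lam := by
    refine lt_of_le_of_ne hs.aleph0_le ?_
    rintro rfl
    exact not_isSingular_aleph0 hs
  have hlim : ∀ nu < lam, Order.succ nu < lam := by
    intro nu hnu
    refine lt_of_le_of_ne (Order.succ_le_of_lt hnu) ?_
    rintro rfl
    exact not_isSingular_succ _ hs
  have hsn : ∀ nu < lam, Order.succ (max nu ℵ₀) < lam := fun nu hnu => hlim _ (max_lt hnu hlam)
  -- a small cofinal set
  obtain ⟨S, hS1, hS2⟩ := Order.exists_cof_eq (α := lam.ord.ToType)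
  rw [Ordinal.cof_toType] at hS2
  have hScard : #S < lam := hS2 ▸ hs.cof_ord_lt
  let mu : S → Cardinal.{u} := fun s => #(Iio s.1)
  have hmu : ∀ s, mu s < lam := fun s => (mk_Iio_lt s.1 (by simp)).trans_eq (mk_ord_toType lam)
  let Bad : S → Set I := fun s => {i : I | ∃ p : Pt B, p.i = i ∧ ¬ Good Q (mu s) p}
  have hBad : ∀ s, #(Bad s) ≤ lam := fun s =>
    (bad_le hbd hdis hBc Q hQ hlam.le (max_lt (hmu s) hlam)).trans (max_lt (hmu s) hlam).le
  have hU : #(⋃ s, Bad s) ≤ lam := by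
    refine (mk_iUnion_le_sum_mk).trans ?_
    refine (sum_le_sum _ (fun _ => lam) hBad).trans ?_
    rw [sum_const']
    exact (mul_le_mul' hScard.le le_rfl).trans (mul_eq_self hlam.le).le
  have hc : lam < #((⋃ s, Bad s)ᶜ : Set I) := by
    by_contra hcon
    rw [not_lt] at hcon
    have h1 := mk_sum_compl (⋃ s, Bad s)
    rw [hIc] at h1
    have h2 : Order.succ lam ≤ lam := by
      rw [← h1]
      exact (add_le_add hU hcon).trans (add_eq_self hlam.le).le
    exact absurd h2 (not_le.2 (Order.lt_succ lam))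
  obtain ⟨Y, hY1, hY2⟩ := le_mk_iff_exists_subset.1 ((hsn _ hScard).trans hc).le
  have hJ : #S + 1 < #Y := by
    rw [hY2, Order.lt_succ_iff]
    calc #S + 1 ≤ max #S ℵ₀ + max #S ℵ₀ :=
          add_le_add (le_max_left _ _) (one_le_aleph0.trans (le_max_right _ _))
      _ = max #S ℵ₀ := add_eq_self (le_max_right _ _)
  have hYlam : #Y ≤ lam := hY2 ▸ (hsn _ hScard).le
  -- starting points
  have hp : ∀ i, ∃ p : Pt B, p.i = i := fun i => by
    obtain ⟨b, hb, -⟩ := hBc i (Classical.arbitrary K)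
    exact exists_pt i hb
  choose p hp using hp
  -- the chains
  have hch : ∀ (s : S) (p : Pt B), ∃ (C : Set (Pt B)) (q : Pt B), p ≤ q ∧
      (Good Q (mu s) p → C ⊆ Q ∧ IsChain (· ≤ ·) C ∧ (∀ c ∈ C, p ≤ c ∧ c ≤ q) ∧ mu s ≤ #C) := by
    intro s p
    by_cases hg : Good Q (mu s) p
    · obtain ⟨C, q, h1, h2, h3, h4, h5⟩ := hg
      exact ⟨C, q, h4, fun _ => ⟨h1, h2, h3, h5⟩⟩
    · exact ⟨∅, p, le_rfl, fun h => absurd h hg⟩
  choose C q hq hC using hch
  obtain ⟨y, hy, r, q', h1, h2, -, -⟩ := key (J := S) hbd hdis hlam.le Y hJ hYlam p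
    (fun y _ => hp y) (fun s p => q s p) (fun s p => hq s p)
  have hgood : ∀ s, Good Q (mu s) (r s) := by
    intro s
    by_contra hcon
    have h3 : y ∈ Bad s := ⟨r s, (h1 s).1.symm.trans (hp y), hcon⟩
    exact hY1 hy (mem_iUnion.2 ⟨s, h3⟩)
  have hC' := fun s => hC s (r s) (hgood s)
  have hlt : ∀ s t, s < t → ∀ c ∈ C s (r s), ∀ d ∈ C t (r t), c ≤ d := fun s t hst c hc d hd =>
    ((hC' s).2.2.1 c hc).2.trans ((h2 s t hst).trans ((hC' t).2.2.1 d hd).1)
  refine ⟨⋃ s, C s (r s), iUnion_subset fun s => (hC' s).1, ?_, ?_⟩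
  · intro c hc d hd hne
    obtain ⟨s, hs⟩ := mem_iUnion.1 hc
    obtain ⟨t, ht⟩ := mem_iUnion.1 hd
    rcases lt_trichotomy s t with h | h | h
    · exact Or.inl (hlt s t h c hs d ht)
    · subst h
      exact (hC' s).2.1 hs ht hne
    · exact Or.inr (hlt t s h d ht c hs)
  · by_contra hcon
    rw [not_le] at hcon
    -- an element with many predecessors
    have h5 := hlim _ hcon
    have h6 : (Order.succ #(⋃ s, C s (r s))).ord <
        Ordinal.type ((· < ·) : lam.ord.ToType → lam.ord.ToType → Prop) := by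
      rw [Ordinal.type_toType]
      exact ord_lt_ord.2 h5
    obtain ⟨x, hx⟩ : ∃ x : lam.ord.ToType, #(Iio x) = Order.succ #(⋃ s, C s (r s)) := by
      refine ⟨Ordinal.enum _ ⟨_, h6⟩, ?_⟩
      have := Ordinal.card_typein (r := ((· < ·) : lam.ord.ToType → lam.ord.ToType → Prop))
        (Ordinal.enum _ ⟨_, h6⟩)
      rw [Ordinal.typein_enum, card_ord] at this
      exact this.symm
    obtain ⟨s, hsS, hxs⟩ := hS1 x
    have h7 : Order.succ #(⋃ s, C s (r s)) ≤ mu ⟨s, hsS⟩ := by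
      rw [← hx]
      exact mk_le_mk_of_subset fun z hz => lt_of_lt_of_le hz hxs
    have h8 : mu ⟨s, hsS⟩ ≤ #(⋃ s, C s (r s)) :=
      (hC' ⟨s, hsS⟩).2.2.2.trans (mk_le_mk_of_subset (subset_iUnion (fun s => C s (r s)) _))
    exact absurd (h7.trans h8) (not_le.2 (Order.lt_succ _))

end good

end Pool.Agent.R584.Sing
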